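import Pool.Agent.Lib.MP_64d474_lc.BK.Defs69

/-!
# Seeds and grid for the map `btPt (cv) + pt`
-/

set_option autoImplicit false

namespace BK

open MvPolynomial AK Pool.Agent.Lib.MP_64d474_lc.S3 SP DH

theorem eval_qX {F : Type*} [Field F] {n : ℕ} {β : Fin n → ℕ} {κ S W R : ℕ} (x : Unit ⊕ (Fin R ⊕ Fin R) → F)
    (f : MvPolynomial (Fin n) F) :
    eval x (aeval (qX F β κ S W R) f) =
      eval (qpt β κ S W (x (Sum.inl ())) (fun j => x (Sum.inr (Sum.inl j)))
        (fun j => x (Sum.inr (Sum.inr j)))) f := by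
  have h1 := MvPolynomial.comp_aeval_apply (qX F β κ S W R)
    (aeval x : MvPolynomial (Unit ⊕ (Fin R ⊕ Fin R)) F →ₐ[F] F) f
  rw [aeval_eq_eval] at h1
  rw [h1, aeval_eq_eval]
  congr 2
  funext i
  rw [qX, qpt, qpt, map_add]
  have h2 := map_btPt (eval x : MvPolynomial (Unit ⊕ (Fin R ⊕ Fin R)) F →+* F) S
    (RO.cv W κ (X (Sum.inl ())) (β i)) (i : ℕ)
  rw [RO.map_cv] at h2
  have h3 := map_pt (m := n) (eval x : MvPolynomial (Unit ⊕ (Fin R ⊕ Fin R)) F →+* F)
    (fun j => X (Sum.inr (Sum.inl j))) (fun j => X (Sum.inr (Sum.inr j))) i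
  rw [h2, h3]
  simp only [eval_X]

/-- Vectors with at most `k` nonzero coordinates are added by `k` more pairs of seeds. -/
theorem exists_append {F : Type*} [Field F] [CharZero F] {n : ℕ} {β : Fin n → ℕ} {κ S W R k : ℕ} (I : Finset (Fin n))
    (hI : I.card ≤ k) (t : F) (a w : Fin R → F) (v : Fin n → F) (hv : ∀ i, i ∉ I → v i = 0) :
    ∃ a' w' : Fin (R + k) → F, qpt β κ S W t a' w' = fun i => qpt β κ S W t a w i + v i := by
  obtain ⟨a₁, w₁, h⟩ := exists_seeds I hI v hv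
  refine ⟨Fin.append a a₁, Fin.append w w₁, ?_⟩
  funext i
  rw [qpt, qpt, pt_append, congrFun h i, add_assoc]

/-- The induction step. -/
theorem hit_of_res {F : Type*} [Field F] [CharZero F] {n : ℕ} {β : Fin n → ℕ} {κ S W R k : ℕ} (I : Finset (Fin n))
    (hI : I.card ≤ k) (BB : Finset (MvPolynomial (Fin n) F))
    (hBB : ∀ b ∈ BB, aeval (qX F β κ S W R) b ≠ 0) (h : MvPolynomial (Fin n) F)
    (ho : ∀ o : Fin n → F, (∀ b ∈ BB, eval o b ≠ 0) → AK.res I o h ≠ 0) :
    aeval (qX F β κ S W (R + k)) h ≠ 0 := by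
  have hprod : (∏ b ∈ BB, aeval (qX F β κ S W R) b) ≠ 0 := by
    rw [Finset.prod_ne_zero_iff]
    exact hBB
  obtain ⟨x, hx⟩ := exists_eval_ne hprod
  rw [map_prod, Finset.prod_ne_zero_iff] at hx
  have h1 := ho (qpt β κ S W (x (Sum.inl ())) (fun j => x (Sum.inr (Sum.inl j)))
    (fun j => x (Sum.inr (Sum.inr j)))) (fun b hb => by
      rw [← eval_qX]
      exact hx b hb)
  obtain ⟨w, hw⟩ := exists_eval_ne h1
  rw [eval_res] at hw
  obtain ⟨a', w', h2⟩ := exists_append (β := β) (κ := κ) (S := S) (W := W) I hI (x (Sum.inl ()))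
    (fun j => x (Sum.inr (Sum.inl j))) (fun j => x (Sum.inr (Sum.inr j)))
    (fun i => if i ∈ I then w i else 0) (fun i hi => if_neg hi)
  intro h0
  apply hw
  rw [← h2]
  have h3 := eval_qX (Sum.elim (fun _ : Unit => x (Sum.inl ())) (Sum.elim a' w')) h (β := β) (κ := κ) (S := S) (W := W)
  rw [h0, map_zero] at h3
  exact h3.symm

/-- The base case. -/
theorem aeval_qX_of2 {F : Type*} [Field F] [CharZero F] {n : ℕ} {β : Fin n → ℕ} {κ S W : ℕ}
    (b : MvPolynomial (Fin n) F) (hb : ∃ t : F, eval (fun i : Fin n => btPt S (RO.cv W κ t (β i)) (i : ℕ)) b ≠ 0) : aeval (qX F β κ S W 0) b ≠ 0 := by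
  obtain ⟨t, ht'⟩ := hb
  intro h1
  apply ht'
  have h3 := eval_qX (Sum.elim (fun _ : Unit => t) (Sum.elim (Fin.elim0 : Fin 0 → F) Fin.elim0)) b
    (β := β) (κ := κ) (S := S) (W := W)
  rw [h1, map_zero] at h3
  have h4 : (fun i : Fin n => btPt S (RO.cv W κ t (β i)) (i : ℕ)) = qpt β κ S W t
      (fun j : Fin 0 => (Sum.elim (fun _ : Unit => t)
        (Sum.elim (Fin.elim0 : Fin 0 → F) Fin.elim0)) (Sum.inr (Sum.inl j)))
      (fun j : Fin 0 => (Sum.elim (fun _ : Unit => t)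
        (Sum.elim (Fin.elim0 : Fin 0 → F) Fin.elim0)) (Sum.inr (Sum.inr j))) := by
    funext i
    simp [qpt, pt]
  rw [h4]
  exact h3.symm

theorem degreeOf_bt2 {F σ : Type*} [Field F] (v : σ) (S : ℕ) (z : MvPolynomial σ F) (i : ℕ) :
    (btPt S z i).degreeOf v ≤ (S - 1) * z.degreeOf v := by
  classical
  rw [btPt]
  refine (degreeOf_sum_le _ _ _).trans (Finset.sup_le fun j hj => ?_)
  refine (degreeOf_mul_le _ _ _).trans ?_
  have h1 : ((-1 : MvPolynomial σ F) ^ (S - 1 - j) * ((S - 1).choose j : MvPolynomial σ F) *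
      (Nat.nth Nat.Prime i : MvPolynomial σ F) ^ j).degreeOf v = 0 := by
    have h2 : ((-1 : MvPolynomial σ F) ^ (S - 1 - j) * ((S - 1).choose j : MvPolynomial σ F) *
      (Nat.nth Nat.Prime i : MvPolynomial σ F) ^ j) = C ((-1 : F) ^ (S - 1 - j) *
        ((S - 1).choose j : F) * (Nat.nth Nat.Prime i : F) ^ j) := by
      simp
    rw [h2, degreeOf_C]
  rw [h1, zero_add]
  refine (degreeOf_prod_le _ _ _).trans ?_
  calc ∑ l ∈ (Finset.range S).erase j, (z - (l : MvPolynomial σ F)).degreeOf v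
      ≤ ∑ _l ∈ (Finset.range S).erase j, z.degreeOf v := by
        refine Finset.sum_le_sum fun l _ => ?_
        rw [← map_natCast (C : F →+* MvPolynomial σ F)]
        refine (degreeOf_sub_le _ _ _).trans ?_
        rw [degreeOf_C]
        simp
    _ = (S - 1) * z.degreeOf v := by
        rw [Finset.sum_const, Finset.card_erase_of_mem hj, Finset.card_range, smul_eq_mul]

theorem degreeOf_qX_t {F : Type*} [Field F] {n : ℕ} {β : Fin n → ℕ} {κ S W R : ℕ} (hW : 1 ≤ W) (i : Fin n) :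
    (qX F β κ S W R i).degreeOf (Sum.inl ()) ≤ (S - 1) * W ^ κ := by
  classical
  rw [qX, qpt]
  refine (degreeOf_add_le _ _ _).trans (max_le ?_ ?_)
  · refine (degreeOf_bt2 _ _ _ _).trans (Nat.mul_le_mul_left _ ?_)
    refine (RO.degreeOf_cv hW _ _ _ (D := 1) (by simp) _).trans ?_
    simp
  · refine (degreeOf_pt _ _ _ 0 0 (fun j => by simp) (fun j => by simp) i).trans ?_
    simp

theorem degreeOf_qX_a {F : Type*} [Field F] {n : ℕ} {β : Fin n → ℕ} {κ S W R : ℕ} (hW : 1 ≤ W) (i : Fin n) (j : Fin R) :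
    (qX F β κ S W R i).degreeOf (Sum.inr (Sum.inl j)) ≤ n - 1 := by
  classical
  rw [qX, qpt]
  refine (degreeOf_add_le _ _ _).trans (max_le ?_ ?_)
  · refine (degreeOf_bt2 _ _ _ _).trans ?_
    have h1 : (RO.cv W κ (X (Sum.inl ()) : MvPolynomial (Unit ⊕ (Fin R ⊕ Fin R)) F)
        (β i)).degreeOf (Sum.inr (Sum.inl j)) = 0 :=
      Nat.le_zero.1 ((RO.degreeOf_cv hW _ _ _ (D := 0) (by rw [degreeOf_X, if_neg (by simp)]) _).trans
        (by simp))
    rw [h1, mul_zero]
    exact Nat.zero_le _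
  · refine (degreeOf_pt _ _ _ 1 0 (fun j => by split_ifs <;> simp) (fun j => by simp) i).trans ?_
    simp

theorem degreeOf_qX_w {F : Type*} [Field F] {n : ℕ} {β : Fin n → ℕ} {κ S W R : ℕ} (hW : 1 ≤ W) (i : Fin n) (j : Fin R) :
    (qX F β κ S W R i).degreeOf (Sum.inr (Sum.inr j)) ≤ 1 := by
  classical
  rw [qX, qpt]
  refine (degreeOf_add_le _ _ _).trans (max_le ?_ ?_)
  · refine (degreeOf_bt2 _ _ _ _).trans ?_
    have h1 : (RO.cv W κ (X (Sum.inl ()) : MvPolynomial (Unit ⊕ (Fin R ⊕ Fin R)) F)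
        (β i)).degreeOf (Sum.inr (Sum.inr j)) = 0 :=
      Nat.le_zero.1 ((RO.degreeOf_cv hW _ _ _ (D := 0) (by rw [degreeOf_X, if_neg (by simp)]) _).trans
        (by simp))
    rw [h1, mul_zero]
    exact Nat.zero_le _
  · refine (degreeOf_pt _ _ _ 0 1 (fun j => by simp) (fun j => by split_ifs <;> simp) i).trans ?_
    simp

/-- If `h` is nonzero on the map, it is nonzero at a point whose seeds are small natural
numbers. -/
theorem grid {F : Type*} [Field F] [CharZero F] {n : ℕ} {β : Fin n → ℕ} {κ S W R N : ℕ} (hW : 1 ≤ W)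
    (h : MvPolynomial (Fin n) F) (hN : h.totalDegree ≤ N) (h0 : aeval (qX F β κ S W R) h ≠ 0) :
    ∃ (t : ℕ) (a w : Fin R → ℕ), t ≤ N * ((S - 1) * W ^ κ) ∧
      (∀ j, a j ≤ N * (n - 1)) ∧ (∀ j, w j ≤ N) ∧
      eval (qpt β κ S W (t : F) (fun j => (a j : F)) (fun j => (w j : F))) h ≠ 0 := by
  classical
  by_contra hno
  push Not at hno
  apply h0
  refine eq_zero_of_eval_zero_at_prod_finset (aeval (qX F β κ S W R) h)
    (Sum.elim (fun _ => (Finset.range (N * ((S - 1) * W ^ κ) + 1)).image (fun a : ℕ => (a : F)))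
      (Sum.elim (fun _ => (Finset.range (N * (n - 1) + 1)).image (fun a : ℕ => (a : F)))
        (fun _ => (Finset.range (N + 1)).image (fun a : ℕ => (a : F))))) ?_ ?_
  · rintro (j | j | j)
    · simp only [Sum.elim_inl]
      rw [Finset.card_image_of_injective _ Nat.cast_injective, Finset.card_range]
      exact Nat.lt_succ_of_le ((degreeOf_aeval_le69 _ _ _ (fun i => degreeOf_qX_t hW i) h).trans
        (Nat.mul_le_mul_right _ hN))
    · simp only [Sum.elim_inl, Sum.elim_inr]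
      rw [Finset.card_image_of_injective _ Nat.cast_injective, Finset.card_range]
      exact Nat.lt_succ_of_le ((degreeOf_aeval_le69 _ _ _ (fun i => degreeOf_qX_a hW i j) h).trans
        (Nat.mul_le_mul_right _ hN))
    · simp only [Sum.elim_inr]
      rw [Finset.card_image_of_injective _ Nat.cast_injective, Finset.card_range]
      refine Nat.lt_succ_of_le ((degreeOf_aeval_le69 _ _ 1 (fun i => degreeOf_qX_w hW i j) h).trans ?_)
      rw [mul_one]
      exact hN
  · intro x hx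
    obtain ⟨t, ht1, ht2⟩ : ∃ a : ℕ, a ≤ N * ((S - 1) * W ^ κ) ∧ (a : F) = x (Sum.inl ()) := by
      have := hx (Sum.inl ())
      simp only [Sum.elim_inl, Finset.mem_image, Finset.mem_range] at this
      obtain ⟨a, ha, ha2⟩ := this
      exact ⟨a, by omega, ha2⟩
    have ha : ∀ j : Fin R, ∃ a : ℕ, a ≤ N * (n - 1) ∧ (a : F) = x (Sum.inr (Sum.inl j)) := by
      intro j
      have := hx (Sum.inr (Sum.inl j))
      simp only [Sum.elim_inl, Sum.elim_inr, Finset.mem_image, Finset.mem_range] at this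
      obtain ⟨a, ha, ha2⟩ := this
      exact ⟨a, by omega, ha2⟩
    have hw : ∀ j : Fin R, ∃ a : ℕ, a ≤ N ∧ (a : F) = x (Sum.inr (Sum.inr j)) := by
      intro j
      have := hx (Sum.inr (Sum.inr j))
      simp only [Sum.elim_inr, Finset.mem_image, Finset.mem_range] at this
      obtain ⟨a, ha, ha2⟩ := this
      exact ⟨a, by omega, ha2⟩
    choose a ha1 ha2 using ha
    choose w hw1 hw2 using hw
    have h1 := hno t a w ht1 ha1 hw1
    rw [eval_qX, ← ht2]
    have e1 : (fun j => x (Sum.inr (Sum.inl j))) = fun j => ((a j : ℕ) : F) :=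
      funext fun j => (ha2 j).symm
    have e2 : (fun j => x (Sum.inr (Sum.inr j))) = fun j => ((w j : ℕ) : F) :=
      funext fun j => (hw2 j).symm
    rw [e1, e2]
    exact h1


/-- base case, from H -/
theorem aeval_qX_of_hit {F : Type*} [Field F] [CharZero F] {n κ S W : ℕ} {β : Fin n → ℕ}
    (hH : ∀ f : MvPolynomial (Fin n) F, f ≠ 0 → Wd β W f → Sp β S f →
      ∃ z : F, eval (fun i : Fin n => SP.btPt S (RO.cv W κ z (β i)) (i : ℕ)) f ≠ 0)
    (b : MvPolynomial (Fin n) F) (h0 : b ≠ 0)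
    (h1 : Wd β W b) (h2 : Sp β S b) : aeval (qX F β κ S W 0) b ≠ 0 :=
  aeval_qX_of2 b (hH b h0 h1 h2)

end BK
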