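import Pool.Agent.Lib.MP_64d474_lc.BK.B2
import Pool.Agent.Lib.MP_64d474_lc.DF.Ind15

/-!
# Sums with any `r` variables in few terms, over blocks (copy of DF with any class at level 0)
-/

set_option autoImplicit false

namespace BK

open MvPolynomial AK LS LS.CL15 DF DF.CL15 DF.Ind15

universe u

/-- The levels given by differences, over any classes `B s`. -/
def GLev {F : Type*} [Field F] {n : ℕ} (B : ℕ → MvPolynomial (Fin n) F → Prop) (r s k e : ℕ) :
    ℕ → MvPolynomial (Fin n) F → Prop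
  | 0, f => B s f ∧ ∀ i, f.degreeOf i ≤ e
  | t + 1, f => Df k (GLev B r s k e t) r f ∧ ∀ i, f.degreeOf i ≤ e

/-- The levels given by sums, over any classes `B s`. -/
def GRLev {F : Type*} [Field F] {n : ℕ} (B : ℕ → MvPolynomial (Fin n) F → Prop) (r s k e : ℕ) :
    ℕ → MvPolynomial (Fin n) F → Prop
  | 0, f => B s f ∧ ∀ i, f.degreeOf i ≤ e
  | t + 1, f => LocR r k e (GRLev B r s k e t) f ∧ ∀ i, f.degreeOf i ≤ e

/-- Translations. -/
def BTc {F : Type*} [Field F] {n : ℕ} (B : ℕ → MvPolynomial (Fin n) F → Prop) (e : ℕ) : Prop :=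
  ∀ (m : ℕ) (c : Fin n → F), (supp c).card ≤ m → ∀ (s : ℕ) (f : MvPolynomial (Fin n) F),
    (∀ i, f.degreeOf i ≤ e) → B s f → B ((e + 1) ^ m * s) (tc c f)

/-- Row B4. -/
theorem dlev_tcB {F : Type*} [Field F] {n r s k e t : ℕ}
    {B : ℕ → MvPolynomial (Fin n) F → Prop} (hB : BTc B e) (m : ℕ) (c : Fin n → F)
    (hc : (supp c).card ≤ m) {f : MvPolynomial (Fin n) F} (h : GLev B r s k e t f) :
    GLev B r ((e + 1) ^ m * s) k e t (tc c f) := by
  induction t generalizing f with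
  | zero => exact ⟨hB m c hc s f h.2 h.1, fun j => (tc_degreeOf c j f).trans (h.2 j)⟩
  | succ t ih =>
    exact ⟨df_tcP c (fun f hf => ih hf) h.1, fun j => (tc_degreeOf c j f).trans (h.2 j)⟩

/-- Row B5. -/
theorem df_tcB {F : Type*} [Field F] {n r s k e t κ r' : ℕ}
    {B : ℕ → MvPolynomial (Fin n) F → Prop} (hB : BTc B e) (m : ℕ) (c : Fin n → F)
    (hc : (supp c).card ≤ m) {f : MvPolynomial (Fin n) F} (h : Df κ (GLev B r s k e t) r' f) :
    Df κ (GLev B r ((e + 1) ^ m * s) k e t) r' (tc c f) :=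
  df_tcP c (fun _ hf => dlev_tcB hB m c hc hf) h

/-- Row B6. -/
theorem algF_tcB {F : Type*} [Field F] {n r s k e t K : ℕ}
    {B : ℕ → MvPolynomial (Fin n) F → Prop} (hB : BTc B e) (m : ℕ) (c : Fin n → F)
    (hc : (supp c).card ≤ m) {G : Set (MvPolynomial (Fin n) F)}
    (h : AlgF K (GLev B r s k e t) G) :
    AlgF K (GLev B r ((e + 1) ^ m * s) k e t) (tc c '' G) :=
  algF_map c (fun _ hf => dlev_tcB hB m c hc hf) h

/-- Row B7. -/
theorem df_diffB {F : Type*} [Field F] {n r s k e t κ r' : ℕ}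
    {B : ℕ → MvPolynomial (Fin n) F → Prop} (hB : BTc B e) (m : ℕ) (c : Fin n → F)
    (hc : (supp c).card ≤ m) {f : MvPolynomial (Fin n) F}
    (h : Df κ (GLev B r s k e t) (r' + 1) f) :
    Df (m * κ) (GLev B r ((e + 1) ^ m * s) k e t) r' (tc c f - f) :=
  df_diffP h m (fun c hc _ hf => dlev_tcB hB m c hc hf) c hc


/-- Row CL. -/
theorem expr_qdB {F : Type*} [Field F] [Infinite F] {n r r' q M K κ k s e E M' t : ℕ}
    {B : ℕ → MvPolynomial (Fin n) F → Prop} (hB : BTc B e) (i : Fin n)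
    (BB : Finset (MvPolynomial (Fin n) F))
    (h : ∀ b ∈ BB, Qd r' q M K κ (GLev B r s k e t) b ∧ ∀ j, b.degreeOf j ≤ E)
    (b : MvPolynomial (Fin n) F) (hb : Expr (Pi.single i 1) E M' BB b) :
    Qd r' ((E + 1) * (E + 1) * q) (M' * M) ((E + 1) * (E + 1) * K) κ
      (GLev B r ((e + 1) * s) k e t) b := by
  classical
  obtain ⟨g, p, hg, hp, rfl⟩ := hb
  obtain ⟨c, lam, -, hlam⟩ := AK.DH.coeff_eq_sum_tr (F := F) (Pi.single i (1 : F)) E
  choose q' bb Q hq' hbb hQM hQA hQe using fun a : Fin (E + 1) => (h _ (hg a)).1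
  let φ : Fin (E + 1) → MvPolynomial (Fin n) F →+* MvPolynomial (Fin n) F := fun j =>
    (tc (Pi.single i (c j)) : MvPolynomial (Fin n) F →ₐ[F] MvPolynomial (Fin n) F).toRingHom
  let τ : Type := Σ aj : Fin (E + 1) × Fin (E + 1), Fin (q' aj.1)
  let v : ∀ aj : Fin (E + 1) × Fin (E + 1), Fin (q' aj.1) → τ := fun aj j => ⟨aj, j⟩
  have hv : ∀ aj, Function.Injective (v aj) := fun aj j j' hj => by
    exact eq_of_heq (Sigma.mk.inj hj).2
  let b' : τ → MvPolynomial (Fin n) F := fun x => φ x.1.2 (bb x.1.1 x.2)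
  let G : Fin (E + 1) → Fin (E + 1) → MvPolynomial τ (MvPolynomial (Fin n) F) := fun a j' =>
    eval₂ (C.comp (φ j')) (fun j => X (v (a, j') j) + C 0) (Q a)
  have hG : ∀ a j', eval b' (G a j') = φ j' (g a) := fun a j' => by
    rw [hQe a]
    exact eval_shift2 (φ j') (v (a, j')) (bb a) (fun _ => 0) b' (fun j => add_zero _) (Q a)
  let H : Fin (E + 1) × Fin (E + 1) → MvPolynomial τ (MvPolynomial (Fin n) F) := fun al =>
    ∑ j', C (C (lam al.2 j')) * G al.1 j'
  have hH : ∀ al, eval b' (H al) = (sh (Pi.single i 1) (g al.1)).coeff al.2 := fun al => by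
    rw [hlam (g al.1) ((sh_natDegree_degreeOf i _).trans ((h _ (hg al.1)).2 i)) al.2]
    simp only [H, map_sum, map_mul, eval_C, hG]
    refine Finset.sum_congr rfl fun j' _ => ?_
    rw [tr_single]
    rfl
  have hs : (e + 1) ^ 1 * s = (e + 1) * s := by rw [pow_one]
  have h6 : ∀ p : MvPolynomial (Fin (E + 1) × Fin (E + 1)) F, eval b' (aeval H p) =
      aeval (fun al : Fin (E + 1) × Fin (E + 1) =>
        (sh (Pi.single i 1) (g al.1)).coeff (al.2 : ℕ)) p := by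
    intro p
    have h7 : ((aeval b' : MvPolynomial τ (MvPolynomial (Fin n) F) →ₐ[
        MvPolynomial (Fin n) F] MvPolynomial (Fin n) F).restrictScalars F).comp (aeval H) =
        aeval (fun al : Fin (E + 1) × Fin (E + 1) =>
          (sh (Pi.single i (1 : F)) (g al.1)).coeff (al.2 : ℕ)) := by
      refine MvPolynomial.algHom_ext fun al => ?_
      rw [AlgHom.comp_apply, aeval_X, aeval_X, AlgHom.restrictScalars_apply, aeval_eq_eval]
      exact hH al
    have h8 := DFunLike.congr_fun h7 p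
    rw [AlgHom.comp_apply, AlgHom.restrictScalars_apply, aeval_eq_eval] at h8
    exact h8
  rw [← h6 p]
  refine qd_of b' (aeval H p) ?_ (fun x => ?_) (fun x => ?_) ?_
  · rw [Fintype.card_sigma]
    calc ∑ aj : Fin (E + 1) × Fin (E + 1), Fintype.card (Fin (q' aj.1)) ≤
        ∑ _aj : Fin (E + 1) × Fin (E + 1), q := by
          refine Finset.sum_le_sum fun aj _ => ?_
          rw [Fintype.card_fin]
          exact hq' _
      _ = (E + 1) * (E + 1) * q := by simp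
  · have h1 := df_tcB hB 1 (Pi.single i (c x.1.2)) (supp_single_card _ _) (hbb x.1.1 x.2)
    rw [hs] at h1
    exact h1
  · refine (degreeOf_aeval_le15 H x M (fun al => ?_) p).trans (Nat.mul_le_mul_right _ hp)
    refine (degreeOf_sum_le _ _ _).trans (Finset.sup_le fun j' _ => ?_)
    refine (degreeOf_mul_le _ _ _).trans ?_
    rw [degreeOf_C, zero_add]
    exact degreeOf_shift (φ j') (v (al.1, j')) (hv _) _ x M (Q al.1) (hQM al.1)
  · have h1 : ∀ aj : Fin (E + 1) × Fin (E + 1), AlgF K (GLev B r ((e + 1) * s) k e t)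
        (tc (Pi.single i (c aj.2)) '' {x | ∃ μ, x = coeff μ (Q aj.1)}) := by
      intro aj
      have := algF_tcB hB 1 (Pi.single i (c aj.2)) (supp_single_card _ _) (hQA aj.1)
      rwa [hs] at this
    have h4 := algF_adjoin (algF_iUnion h1)
    rw [Fintype.card_prod, Fintype.card_fin] at h4
    refine algF_mono le_rfl (fun f hf => hf) ?_ h4
    rintro x ⟨μ, rfl⟩
    set A : Subalgebra F (MvPolynomial (Fin n) F) := Algebra.adjoin F (⋃ aj :
      Fin (E + 1) × Fin (E + 1), (tc (Pi.single i (c aj.2)) '' {x | ∃ μ, x = coeff μ (Q aj.1)}))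
      with hA
    have hGA : ∀ a j', G a j' ∈ coeffsIn A τ := by
      intro a j'
      refine eval₂_mem_coeffsIn (φ j') _ (fun j => ?_) (Q a) (fun μ => ?_)
      · exact Subalgebra.add_mem _ (X_mem_coeffsIn _) (C_mem_coeffsIn (Subalgebra.zero_mem _))
      · refine Algebra.subset_adjoin (Set.mem_iUnion.2 ⟨(a, j'), ?_⟩)
        exact ⟨_, ⟨μ, rfl⟩, rfl⟩
    have hHA : ∀ al, H al ∈ coeffsIn A τ := by
      intro al
      refine Subalgebra.sum_mem _ fun j' _ => Subalgebra.mul_mem _ (C_mem_coeffsIn ?_) (hGA _ _)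
      exact Subalgebra.algebraMap_mem _ _
    refine coeff_mem_of ?_ μ
    have h5 : aeval H p ∈ Algebra.adjoin F (Set.range H) := by
      rw [Algebra.adjoin_range_eq_range_aeval]
      exact ⟨p, rfl⟩
    refine (Algebra.adjoin_le ?_ : _ ≤ coeffsIn A τ) h5
    rintro _ ⟨al, rfl⟩
    exact hHA al


theorem hit_qdB (ρ : ℕ) : ∀ q M K κ : ℕ, ∃ K' N' : ℕ, ∀ (F : Type u) [Field F] [CharZero F]
    (n r s k e t R S lg V : ℕ) (β : Fin n → ℕ)
    (B : ℕ → MvPolynomial (Fin n) F → Prop), BTc B e →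
    (∀ f : MvPolynomial (Fin n) F, f ≠ 0 → DH.Alg K' (GLev B r ((e + 1) ^ N' * s) k e t) f →
      aeval (qX F β lg S V R) f ≠ 0) →
    ∀ f : MvPolynomial (Fin n) F, f ≠ 0 → Qd ρ q M K κ (GLev B r s k e t) f →
      aeval (qX F β lg S V (R + N')) f ≠ 0 := by
  induction ρ with
  | zero =>
    intro q M K κ
    refine ⟨K + q * κ, 0, fun F _ _ n r s k e t R S lg V β B hB ih f h0 hf => ?_⟩
    classical
    obtain ⟨q', b, Q, hq', hb, hM, hA, rfl⟩ := hf
    rw [pow_zero, one_mul] at ih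
    refine ih _ h0 ?_
    have h1 : ∀ j : Fin q', AlgF κ (GLev B r s k e t) {b j} := fun j => by
      obtain ⟨m, T, g1, g2, g3⟩ := hb j
      exact ⟨m, T, g1, g2, Set.singleton_subset_iff.2 g3⟩
    have h2 := algF_adjoin (algF_union hA (algF_iUnion h1))
    rw [Fintype.card_fin] at h2
    refine DH.alg_mono (Nat.add_le_add_left (Nat.mul_le_mul_right _ hq') _) (fun f hf => hf)
      (LS.HQ15.alg_of_algF h2 ?_)
    show eval b Q ∈ Algebra.adjoin F _
    rw [eval_eq]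
    refine Subalgebra.sum_mem _ fun μ _ => Subalgebra.mul_mem _ ?_
      (Subalgebra.prod_mem _ fun j _ => Subalgebra.pow_mem _ ?_ _)
    · exact Algebra.subset_adjoin (Or.inl ⟨μ, rfl⟩)
    · exact Algebra.subset_adjoin (Or.inr (Set.mem_iUnion.2 ⟨j, rfl⟩))
  | succ ρ IH =>
    intro q M K κ
    obtain ⟨N, hN⟩ : ∃ N, N = (M + 1) ^ q := ⟨_, rfl⟩
    obtain ⟨K', N'', hIH⟩ := IH (N * q) (N * M) (N * K) (N * κ)
    refine ⟨K', N'' + N, fun F _ _ n r s k e t R S lg V β B hB ih f h0 hf => ?_⟩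
    classical
    obtain ⟨q', b, Q, hq', hb, hM, hA, rfl⟩ := hf
    have hNq : (M + 1) ^ q' ≤ N := hN ▸ Nat.pow_le_pow_right (Nat.succ_pos M) hq'
    obtain ⟨r0, c, P', A, hr, hsupp, hdeg, hco, hD0, hD⟩ := loc2 b Q hM h0
    have hr' := hr.trans hNq
    have hsupp' : ∀ l, (supp (c l)).card ≤ N := fun l => (hsupp l).trans hNq
    have h1 : Qd ρ (N * q) (N * M) (N * K) (N * κ) (GLev B r ((e + 1) ^ N * s) k e t)
        (eval (fun x : Fin r0 × Fin q' => tc (c x.1) (b x.2) - b x.2) P') := by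
      refine DF.CL15.qd_of _ P' ?_ (fun x => ?_) (fun x => ?_) ?_
      · rw [Fintype.card_prod, Fintype.card_fin, Fintype.card_fin]
        exact Nat.mul_le_mul hr' hq'
      · exact df_diffB hB N (c x.1) (hsupp' _) (hb x.2)
      · rw [degreeOf_le_iff]
        intro μ hμ
        exact (hdeg μ hμ x).trans (Nat.mul_le_mul_right _ hNq)
      · have h2 : ∀ l : Fin r0, AlgF K (GLev B r ((e + 1) ^ N * s) k e t)
            (tc (c l) '' {x | ∃ μ, x = coeff μ Q}) := fun l => algF_tcB hB N (c l) (hsupp' l) hA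
        have h3 := algF_adjoin (algF_iUnion h2)
        rw [Fintype.card_fin] at h3
        refine algF_mono (Nat.mul_le_mul_right _ hr') (fun f hf => hf) ?_ h3
        rintro x ⟨μ, rfl⟩
        refine Algebra.adjoin_mono ?_ (hco μ)
        rintro g ⟨l, ν, rfl⟩
        exact Set.mem_iUnion.2 ⟨l, ⟨_, ⟨ν, rfl⟩, rfl⟩⟩
    have h5 := hIH F n r ((e + 1) ^ N * s) k e t R S lg V β B hB (fun f hf0 hf => ih f hf0 (by
      rwa [pow_add, mul_assoc])) _ hD0 h1
    obtain ⟨x, hx⟩ := DH.exists_eval_ne h5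
    rw [eval_qX, hD, map_sum] at hx
    obtain ⟨l, -, hl⟩ := Finset.exists_ne_zero_of_sum_ne_zero hx
    rw [map_mul] at hl
    have h6 := right_ne_zero_of_mul hl
    rw [LS.HQ15.eval_tc] at h6
    obtain ⟨a', w', h7⟩ := exists_append (β := β) (κ := lg) (S := S) (W := V) (supp (c l)) (hsupp' l) (x (Sum.inl ()))
      (fun j => x (Sum.inr (Sum.inl j))) (fun j => x (Sum.inr (Sum.inr j))) (c l) (fun i hi => by
        by_contra h
        exact hi (by rw [supp, Finset.mem_filter]; exact ⟨Finset.mem_univ _, h⟩))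
    intro h8
    apply h6
    rw [← h7]
    have h9 := eval_qX (Sum.elim (fun _ : Unit => x (Sum.inl ())) (Sum.elim a' w'))
      (eval b Q) (β := β) (κ := lg) (S := S) (W := V)
    rw [← add_assoc] at h8
    rw [h8, map_zero] at h9
    exact h9.symm


/-- The classes for the iteration. -/
def PC {F : Type*} [Field F] {n : ℕ} (B : ℕ → MvPolynomial (Fin n) F → Prop)
    (r s k e t j : ℕ) (b : MvPolynomial (Fin n) F) : Prop :=
  Qd r (par e j).1 (par e j).2.1 (par e j).2.2.1 k (GLev B r ((e + 1) ^ j * s) k e t) b ∧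
    ∀ i, b.degreeOf i ≤ (par e j).2.2.2

theorem steps_PC {F : Type u} [Field F] [Infinite F] {n r s k e t : ℕ}
    {B : ℕ → MvPolynomial (Fin n) F → Prop} (hB : BTc B e) (he : 1 ≤ e) :
    Steps (F := F) (n := n) (BK.PC B r s k e t) := by
  intro j i BB hBB
  obtain ⟨BB', h1, h2⟩ := step_gen (one_le_par he j) (Pi.single i (1 : F)) BB
    (fun b hb => (hBB b hb).1)
    (fun b hb => (sh_natDegree_degreeOf i b).trans ((hBB b hb).2.2 i))
  refine ⟨BB', fun b hb => ⟨(h1 b hb).1, ?_, ?_⟩, h2⟩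
  · have h3 := expr_qdB hB i BB (fun b hb => (hBB b hb).2) b (h1 b hb).2
    have h4 : (e + 1) * ((e + 1) ^ j * s) = (e + 1) ^ (j + 1) * s := by ring
    rw [h4] at h3
    exact h3
  · intro i'
    exact DH.expr_degreeOf i i' BB (fun b hb => (hBB b hb).2.2 i') b (h1 b hb).2


/-- More seeds do not hurt. -/
theorem qX_mono {F : Type*} [Field F] [CharZero F] {n κ S W R R' : ℕ} {β : Fin n → ℕ}
    (hR : R ≤ R') (f : MvPolynomial (Fin n) F) (h0 : aeval (qX F β κ S W R) f ≠ 0) :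
    aeval (qX F β κ S W R') f ≠ 0 := by
  obtain ⟨k, rfl⟩ := Nat.exists_eq_add_of_le hR
  refine hit_of_res ∅ (Nat.zero_le k) {f} (fun b hb => by
    rw [Finset.mem_singleton.1 hb]; exact h0) f (fun o ho h => ?_)
  have h1 := DH.eval_res ∅ o o f
  rw [h, map_zero] at h1
  apply ho f (Finset.mem_singleton_self f)
  rw [h1]
  congr 2
  funext i
  simp

/-- Level 0. -/
def BB0 {F : Type*} [Field F] {n : ℕ} (β : Fin n → ℕ) (w s : ℕ) (f : MvPolynomial (Fin n) F) :
    Prop := Wd β w f ∧ Sp β s f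

/-- Translations at level 0 (wd_tc and sp_tc). -/
def StTcB : Prop := ∀ (F : Type u) [Field F] (n : ℕ) (β : Fin n → ℕ) (w e : ℕ),
  BTc (F := F) (n := n) (BB0 β w) e

/-- Row Z. -/
def StZeroD : Prop := ∀ K e : ℕ, 1 ≤ e → ∃ R c : ℕ, ∀ (F : Type u) [Field F] [CharZero F]
    (n l w s V S : ℕ) (β : Fin n → ℕ), (∀ i, β i < 2 ^ l) → 1 ≤ w → 1 ≤ s → (c * w) ^ c ≤ V →
    (c * s) ^ c ≤ S → ∀ f : MvPolynomial (Fin n) F, f ≠ 0 →
    DH.Alg K (fun g => BB0 β w s g ∧ ∀ i, g.degreeOf i ≤ e) f → aeval (qX F β l S V R) f ≠ 0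

theorem hit_indB (hT : StTcB.{u}) (hZ : StZeroD.{u}) (t : ℕ) : ∀ r k e K : ℕ, 1 ≤ e → ∃ R c : ℕ, ∀ (F : Type u) [Field F] [CharZero F]
    (n l w s V S : ℕ) (β : Fin n → ℕ), (∀ i, β i < 2 ^ l) → 1 ≤ w → 1 ≤ s → (c * w) ^ c ≤ V →
    (c * s) ^ c ≤ S → ∀ f : MvPolynomial (Fin n) F, f ≠ 0 →
    DH.Alg K (GLev (BB0 β w) r s k e t) f → aeval (qX F β l S V R) f ≠ 0 := by
  induction t with
  | zero =>
    intro r k e K he
    obtain ⟨R, c, h⟩ := hZ K e he
    exact ⟨R, c, fun F _ _ n l w s V S β hβ hw hs hV hS f h0 hf =>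
      h F n l w s V S β hβ hw hs hV hS f h0 hf⟩
  | succ t ih =>
    intro r k e K he
    have hq : ∀ j : ℕ, ∃ K' N' : ℕ, ∀ (F : Type u) [Field F] [CharZero F]
        (n s R S l V w : ℕ) (β : Fin n → ℕ),
        (∀ f : MvPolynomial (Fin n) F, f ≠ 0 → DH.Alg K' (GLev (BB0 β w) r ((e + 1) ^ N' * s) k e t) f →
          aeval (qX F β l S V R) f ≠ 0) →
        ∀ f : MvPolynomial (Fin n) F, f ≠ 0 →
          Qd r (par e j).1 (par e j).2.1 (par e j).2.2.1 k (GLev (BB0 β w) r s k e t) f →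
          aeval (qX F β l S V (R + N')) f ≠ 0 := fun j => by
      obtain ⟨K', N', h⟩ := hit_qdB.{u} r (par e j).1 (par e j).2.1 (par e j).2.2.1 k
      exact ⟨K', N', fun F _ _ n s R S l V w β => h F n r s k e t R S l V β (BB0 β w)
        (hT F n β w e)⟩
    choose K' N' hQ using hq
    have hj : ∀ j : ℕ, ∃ R c : ℕ, ∀ (F : Type u) [Field F] [CharZero F]
        (n l w s V S : ℕ) (β : Fin n → ℕ), (∀ i, β i < 2 ^ l) → 1 ≤ w → 1 ≤ s → (c * w) ^ c ≤ V →
    (c * s) ^ c ≤ S → ∀ f : MvPolynomial (Fin n) F, f ≠ 0 →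
        DH.Alg (K' j) (GLev (BB0 β w) r s k e t) f → aeval (qX F β l S V R) f ≠ 0 :=
      fun j => ih r k e _ he
    choose R c hRc using hj
    refine ⟨∑ j ∈ Finset.range (K + 1), (R j + N' j + j),
      1 + ∑ j ∈ Finset.range (K + 1), c j * (e + 1) ^ (N' j + j),
      fun F _ _ n l w s V S β hβ hw hs hV hS f h0 hf => ?_⟩
    obtain ⟨m, T, h1, h2, h3⟩ := hf
    obtain ⟨r', hr', I, hI, BB, hBB, hres⟩ := nonzero_gen (BK.PC (BB0 β w) r s k e t)
      (BK.steps_PC (hT F n β w e) he) T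
      (fun j => by
        obtain ⟨M, hM, hT⟩ := h1 j
        refine ⟨M, fun p hp => ?_, hT⟩
        have h4 := hM p hp
        refine ⟨?_, h4.2⟩
        have h5 := qd_of_df h4.1
        show Qd r 1 1 0 k (GLev (BB0 β w) r ((e + 1) ^ 0 * s) k e t) p
        rwa [pow_zero, one_mul]) h2 f h3 h0
    have hmem : r' ∈ Finset.range (K + 1) := Finset.mem_range.2 (Nat.lt_succ_of_le hr')
    have hc : c r' * (e + 1) ^ (N' r' + r') ≤
        ∑ j ∈ Finset.range (K + 1), c j * (e + 1) ^ (N' j + j) :=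
      Finset.single_le_sum (f := fun j => c j * (e + 1) ^ (N' j + j))
        (fun _ _ => Nat.zero_le _) hmem
    have hR : R r' + N' r' + r' ≤ ∑ j ∈ Finset.range (K + 1), (R j + N' j + j) :=
      Finset.single_le_sum (f := fun j => R j + N' j + j) (fun _ _ => Nat.zero_le _) hmem
    refine qX_mono hR f ?_
    refine hit_of_res I hI.le BB (fun b hb => ?_) f hres
    refine hQ r' F n ((e + 1) ^ r' * s) (R r') S l V w β (fun g hg0 hg => ?_) b (hBB b hb).1
      (hBB b hb).2.1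
    refine hRc r' F n l w ((e + 1) ^ N' r' * ((e + 1) ^ r' * s)) V S β hβ hw ?_ ?_ ?_ g hg0 hg
    · exact Nat.mul_pos (Nat.pow_pos (Nat.succ_pos e)) (Nat.mul_pos (Nat.pow_pos (Nat.succ_pos e)) hs)
    · have hc' : c r' ≤ c r' * (e + 1) ^ (N' r' + r') :=
        Nat.le_mul_of_pos_right (c r') (Nat.pow_pos (Nat.succ_pos e))
      have h9 := pow_le (c := c r') (a := 1) hw (by omega) (by omega) hV
      rwa [one_mul] at h9
    · rw [← mul_assoc ((e + 1) ^ N' r'), ← pow_add]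
      have hc' : c r' ≤ c r' * (e + 1) ^ (N' r' + r') :=
        Nat.le_mul_of_pos_right (c r') (Nat.pow_pos (Nat.succ_pos e))
      exact pow_le hs (by omega) (by omega) hS

theorem hit_dfB (hT : StTcB.{u}) (hZ : StZeroD.{u}) (t : ℕ) : ∀ r k e : ℕ, 1 ≤ e → ∃ R c : ℕ, ∀ (F : Type u) [Field F] [CharZero F]
    (n l w s V S : ℕ) (β : Fin n → ℕ), (∀ i, β i < 2 ^ l) → 1 ≤ w → 1 ≤ s → (c * w) ^ c ≤ V →
    (c * s) ^ c ≤ S → ∀ f : MvPolynomial (Fin n) F, f ≠ 0 →
    Df k (GLev (BB0 β w) r s k e t) r f → aeval (qX F β l S V R) f ≠ 0 := by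
  intro r k e he
  obtain ⟨K', N', hQ⟩ := hit_qdB.{u} r 1 1 0 k
  obtain ⟨R, c, h⟩ := hit_indB hT hZ t r k e K' he
  refine ⟨R + N', 1 + c * (e + 1) ^ N', fun F _ _ n l w s V S β hβ hw hs hV hS f h0 hf => ?_⟩
  refine hQ F n r s k e t R S l V β (BB0 β w) (hT F n β w e) (fun g hg0 hg =>
    h F n l w ((e + 1) ^ N' * s) V S β hβ hw ?_ ?_ ?_ g hg0 hg) f h0 (qd_of_df hf)
  · exact Nat.mul_pos (Nat.pow_pos (Nat.succ_pos e)) hs
  · have hc' : c ≤ c * (e + 1) ^ N' := Nat.le_mul_of_pos_right c (Nat.pow_pos (Nat.succ_pos e))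
    have h9 := pow_le (c := c) (a := 1) hw (by omega) (by omega) hV
    rwa [one_mul] at h9
  · have hc' : c ≤ c * (e + 1) ^ N' := Nat.le_mul_of_pos_right c (Nat.pow_pos (Nat.succ_pos e))
    exact pow_le hs (by omega) (by omega) hS

/-- The levels given by sums are contained in levels given by differences. -/
theorem dlev_of_rlevB {F : Type*} [Field F] {n r s k e : ℕ}
    {B : ℕ → MvPolynomial (Fin n) F → Prop} (hB : BTc B e) (t : ℕ) :
    ∀ {f : MvPolynomial (Fin n) F}, GRLev B r s k e t f →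
      GLev B (ord r e) ((e + 1) ^ (ord r e * t) * s) (2 ^ ord r e * k * (2 ^ ord r e * k)) e t f := by
  induction t with
  | zero =>
    intro f h
    rw [mul_zero, pow_zero, one_mul]
    exact h
  | succ t ih =>
    intro f h
    refine ⟨df_of_locR (fun c hc p hp => ?_) h.1, h.2⟩
    have h1 := dlev_tcB hB (ord r e) c hc (ih hp)
    rwa [← mul_assoc, ← pow_add, show ord r e + ord r e * t = ord r e * (t + 1) by ring] at h1

theorem hit_topB (hT : StTcB.{u}) (hZ : StZeroD.{u}) (t : ℕ) : ∀ r k e : ℕ, 1 ≤ e → ∃ R c : ℕ, ∀ (F : Type u) [Field F] [CharZero F]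
    (n l w s V S : ℕ) (β : Fin n → ℕ), (∀ i, β i < 2 ^ l) → 1 ≤ w → 1 ≤ s → (c * w) ^ c ≤ V →
    (c * s) ^ c ≤ S → ∀ f : MvPolynomial (Fin n) F, f ≠ 0 →
    LocR r k e (GRLev (BB0 β w) r s k e t) f → aeval (qX F β l S V R) f ≠ 0 := by
  intro r k e he
  obtain ⟨R, c, h⟩ := hit_dfB hT hZ t (ord r e) (2 ^ ord r e * k * (2 ^ ord r e * k)) e he
  refine ⟨R, 1 + c * (e + 1) ^ (ord r e * (t + 1)), fun F _ _ n l w s V S β hβ hw hs hV hS f h0 hf => ?_⟩
  refine h F n l w ((e + 1) ^ (ord r e * (t + 1)) * s) V S β hβ hw ?_ ?_ ?_ f h0 ?_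
  · exact Nat.mul_pos (Nat.pow_pos (Nat.succ_pos e)) hs
  · have hc' : c ≤ c * (e + 1) ^ (ord r e * (t + 1)) :=
      Nat.le_mul_of_pos_right c (Nat.pow_pos (Nat.succ_pos e))
    have h9 := pow_le (c := c) (a := 1) hw (by omega) (by omega) hV
    rwa [one_mul] at h9
  · have hc' : c ≤ c * (e + 1) ^ (ord r e * (t + 1)) :=
      Nat.le_mul_of_pos_right c (Nat.pow_pos (Nat.succ_pos e))
    exact pow_le hs (by omega) (by omega) hS
  · refine df_of_locR (fun c hc p hp => ?_) hf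
    have h1 := dlev_tcB (hT F n β w e) (ord r e) c hc (dlev_of_rlevB (hT F n β w e) t hp)
    rwa [← mul_assoc, ← pow_add, show ord r e + ord r e * t = ord r e * (t + 1) by ring] at h1


end BK
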