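import Pool.Agent.Lib.MP_64d474_lc.RO.B2

/-!
# Blocks of variables: definitions

`β` assigns to each variable its block.  Level 0: small width at the cuts between the blocks, few
parts of monomials in each block.
-/

set_option autoImplicit false

namespace BK

open MvPolynomial AK LS

/-- At every cut between the blocks, `f` is a sum of `w` products of a polynomial in the variables
before the cut and a polynomial in the variables after the cut. -/
def Wd {F : Type*} [Field F] {n : ℕ} (β : Fin n → ℕ) (w : ℕ) (f : MvPolynomial (Fin n) F) : Prop :=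
  ∀ c : ℕ, ∃ g h : ℕ → MvPolynomial (Fin n) F,
    (∀ r, g r ∈ supported F {i : Fin n | β i < c}) ∧
    (∀ r, h r ∈ supported F {i : Fin n | c ≤ β i}) ∧
    f = ∑ r ∈ Finset.range w, g r * h r

open Classical in
/-- In each block the monomials of `f` have at most `s` different parts. -/
def Sp {F : Type*} [Field F] {n : ℕ} (β : Fin n → ℕ) (s : ℕ) (f : MvPolynomial (Fin n) F) : Prop :=
  ∀ b : ℕ, (f.support.image fun μ => μ.filter fun i => β i = b).card ≤ s

/-- The levels. -/
def BLev {F : Type*} [Field F] {n : ℕ} (β : Fin n → ℕ) (w s k e : ℕ) :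
    ℕ → MvPolynomial (Fin n) F → Prop
  | 0, f => (Wd β w f ∧ Sp β s f) ∧ ∀ i, f.degreeOf i ≤ e
  | t + 1, f => LocSum k (BLev β w s k e t) f ∧ ∀ i, f.degreeOf i ≤ e

/-- The point with the seed `t` and `R` pairs of seeds `a_j`, `w_j`. -/
noncomputable def qpt {R₀ : Type*} [CommRing R₀] {n : ℕ} (β : Fin n → ℕ) (κ S W : ℕ) {R : ℕ}
    (t : R₀) (a w : Fin R → R₀) (i : Fin n) : R₀ :=
  SP.btPt S (RO.cv W κ t (β i)) (i : ℕ) + Pool.Agent.Lib.MP_64d474_lc.S3.pt a w i

/-- The map as a vector of polynomials in the seeds. -/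
noncomputable def qX (F : Type*) [Field F] {n : ℕ} (β : Fin n → ℕ) (κ S W R : ℕ) (i : Fin n) :
    MvPolynomial (Unit ⊕ (Fin R ⊕ Fin R)) F :=
  qpt β κ S W (X (Sum.inl ())) (fun j => X (Sum.inr (Sum.inl j)))
    (fun j => X (Sum.inr (Sum.inr j))) i

end BK
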