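import Pool.Agent.Lib.MP_64d474_lc.BK.Defs69

/-!
# Row SQ: polynomial expressions of polynomials with few parts in each block
-/

set_option autoImplicit false

namespace BK

open MvPolynomial AK LS
open scoped Pointwise

theorem sp_aeval {F : Type*} [Field F] {n s M : ℕ} {β : Fin n → ℕ} {κ : Type} [Fintype κ]
    (f : κ → MvPolynomial (Fin n) F) (hf : ∀ a, Sp β s (f a)) (p : MvPolynomial κ F)
    (hp : p.totalDegree ≤ M) : Sp β ((Fintype.card κ * s + 1) ^ M) (aeval f p) := by
  classical
  intro b
  let π : (Fin n →₀ ℕ) →+ (Fin n →₀ ℕ) := Finsupp.filterAddHom (fun i => β i = b)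
  let P : Finset (Fin n →₀ ℕ) → MvPolynomial (Fin n) F → Prop :=
    fun T g => ∀ μ ∈ g.support, π μ ∈ T
  have hmono : ∀ T U g, T ⊆ U → P T g → P U g := fun T U g h h1 μ hμ => h (h1 μ hμ)
  have hsum : ∀ (T : Finset (Fin n →₀ ℕ)) {ι : Type _} (u : Finset ι)
      (g : ι → MvPolynomial (Fin n) F), (∀ i ∈ u, P T (g i)) → P T (∑ i ∈ u, g i) := by
    intro T ι u g hg μ hμ
    obtain ⟨i, hi, h1⟩ := Finset.mem_biUnion.1 (support_sum hμ)
    exact hg i hi μ h1
  have hmul : ∀ T U g h, P T g → P U h → P (T + U) (g * h) := by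
    intro T U g h hg hh μ hμ
    obtain ⟨x, hx, y, hy, rfl⟩ := Finset.mem_add.1 (support_mul g h hμ)
    rw [map_add]
    exact Finset.add_mem_add (hg x hx) (hh y hy)
  let T : Finset (Fin n →₀ ℕ) := insert 0 (Finset.univ.biUnion fun a => (f a).support.image π)
  have hT0 : (0 : Fin n →₀ ℕ) ∈ T := Finset.mem_insert_self _ _
  have hTc : T.card ≤ Fintype.card κ * s + 1 := by
    refine (Finset.card_insert_le _ _).trans (Nat.add_le_add_right ?_ 1)
    refine Finset.card_biUnion_le.trans ?_
    refine (Finset.sum_le_card_nsmul _ _ s fun a _ => ?_).trans (le_of_eq ?_)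
    · exact le_trans (le_of_eq (by congr 1)) (hf a b)
    · rw [Finset.card_univ, smul_eq_mul]
  have hone : P 0 (1 : MvPolynomial (Fin n) F) := by
    intro μ hμ
    rw [← C_1, C_apply, mem_support_iff, coeff_monomial] at hμ
    have h1 : 0 = μ := by
      by_contra h
      rw [if_neg h] at hμ
      exact hμ rfl
    rw [← h1, map_zero]
    exact Finset.zero_mem_zero
  have hfa : ∀ a, P T (f a) := fun a μ hμ => Finset.mem_insert_of_mem
    (Finset.mem_biUnion.2 ⟨a, Finset.mem_univ a, Finset.mem_image_of_mem _ hμ⟩)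
  have hstep : ∀ d : ℕ, d • T ⊆ (d + 1) • T := by
    intro d x hx
    rw [succ_nsmul, ← add_zero x]
    exact Finset.add_mem_add hx hT0
  have hle : ∀ d k : ℕ, d ≤ k → d • T ⊆ k • T := by
    intro d k hk
    induction k, hk using Nat.le_induction with
    | base => exact Finset.Subset.refl _
    | succ k _ ih => exact ih.trans (hstep k)
  have hpow : ∀ a (j : ℕ), P (j • T) (f a ^ j) := by
    intro a j
    induction j with
    | zero => rw [pow_zero, zero_nsmul]; exact hone
    | succ j ih => rw [pow_succ, succ_nsmul]; exact hmul _ _ _ _ ih (hfa a)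
  have hprod : ∀ (m : κ →₀ ℕ) (t : Finset κ), P ((∑ a ∈ t, m a) • T) (∏ a ∈ t, f a ^ m a) := by
    intro m t
    induction t using Finset.induction_on with
    | empty => rw [Finset.prod_empty, Finset.sum_empty, zero_nsmul]; exact hone
    | insert a t ha ih =>
      rw [Finset.prod_insert ha, Finset.sum_insert ha, add_nsmul]
      exact hmul _ _ _ _ (hpow a _) ih
  have hmem : P (M • T) (aeval f p) := by
    rw [aeval_def, eval₂_eq']
    refine hsum _ _ _ fun m hm => ?_
    rw [← Algebra.smul_def]
    intro μ hμ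
    have h2 : ∑ a, m a ≤ M := by
      have h3 := le_totalDegree hm
      rw [Finsupp.sum_fintype _ _ fun _ => rfl] at h3
      exact h3.trans hp
    exact hle _ _ h2 (hprod m Finset.univ μ (support_smul hμ))
  have hsub : ((aeval f p).support.image fun μ => μ.filter fun i => β i = b) ⊆ M • T := by
    intro x hx
    obtain ⟨μ, hμ, rfl⟩ := Finset.mem_image.1 hx
    exact hmem μ hμ
  have hfin : ((aeval f p).support.image fun μ => μ.filter fun i => β i = b).card ≤
      (Fintype.card κ * s + 1) ^ M :=
    (Finset.card_le_card hsub).trans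
      (Finset.card_nsmul_le.trans (Nat.pow_le_pow_left hTc M))
  exact le_trans (le_of_eq (by congr 1)) hfin

end BK
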