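import Pool.Agent.Lib.MP_64d474_lc.BK.Defs69
import Pool.Agent.Lib.MP_64d474_lc.AK.Sparse48

/-!
# Parts of the monomials of the coefficients of the Taylor expansion
-/

set_option autoImplicit false

namespace BK

open MvPolynomial AK LS

/-- Row SM, first half. -/
theorem sp_mono55 {F : Type*} [Field F] {n : ℕ} {β : Fin n → ℕ} {s s' : ℕ} (hs : s ≤ s')
    {f : MvPolynomial (Fin n) F} (h : Sp β s f) : Sp β s' f :=
  fun b => (h b).trans hs

theorem filter_sub55 {n : ℕ} (β : Fin n → ℕ) (i : Fin n) (l b : ℕ) (m : Fin n →₀ ℕ) :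
    (m - Finsupp.single i l).filter (fun j => β j = b) =
      m.filter (fun j => β j = b) - Finsupp.single i l := by
  classical
  ext j
  rw [Finsupp.filter_apply, Finsupp.tsub_apply, Finsupp.tsub_apply, Finsupp.filter_apply]
  split
  · rfl
  · rw [Nat.zero_sub]

/-- Row ST. -/
theorem sp_taylor {F : Type*} [Field F] {n : ℕ} {β : Fin n → ℕ} {s : ℕ} (i : Fin n)
    (l : ℕ) {f : MvPolynomial (Fin n) F} (h : Sp β s f) :
    Sp β s ((sh (Pi.single i 1) f).coeff l) := by
  classical
  intro b
  refine le_trans (Finset.card_le_card (t := (f.support.image fun μ =>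
    μ.filter fun j => β j = b).image fun ν => ν - Finsupp.single i l) ?_)
    (Finset.card_image_le.trans ?_)
  · intro ν hν
    obtain ⟨μ, hμ, rfl⟩ := Finset.mem_image.1 hν
    obtain ⟨m, hm, rfl⟩ := Finset.mem_image.1 (sh_coeff_support48 i f l hμ)
    refine Finset.mem_image.2 ⟨m.filter fun j => β j = b, Finset.mem_image_of_mem _ hm, ?_⟩
    exact (filter_sub55 β i l b m).symm
  · have h1 := h b
    convert h1 using 2

end BK
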