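import Pool.Agent.Lib.MP_64d474_lc.BK.WM2
import Pool.Agent.Lib.MP_64d474_lc.BK.WP81
import Pool.Agent.Lib.MP_64d474_lc.BK.SQ81
import Pool.Agent.Lib.MP_64d474_lc.BK.ST55

/-!
# Row E
-/

set_option autoImplicit false

namespace BK

open MvPolynomial AK LS

/-- Row E. -/
theorem expr_b {F : Type*} [Field F] [Infinite F] {n w s e M : ℕ} {β : Fin n → ℕ} (i : Fin n)
    (BB : Finset (MvPolynomial (Fin n) F)) (h : ∀ b ∈ BB, Wd β w b ∧ Sp β s b)
    (b : MvPolynomial (Fin n) F) (hb : Expr (Pi.single i 1) e M BB b) :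
    Wd β (((e + 1) * (e + 1) * w + 1) ^ M) b ∧ Sp β (((e + 1) * (e + 1) * s + 1) ^ M) b := by
  obtain ⟨g, p, hg, hp, rfl⟩ := hb
  have h1 := wd_aeval (κ := Fin (e + 1) × Fin (e + 1))
    (fun ij => (sh (Pi.single i (1 : F)) (g ij.1)).coeff (ij.2 : ℕ))
    (fun ij => wd_taylor i _ (h _ (hg _)).1) p hp
  have h2 := sp_aeval (κ := Fin (e + 1) × Fin (e + 1))
    (fun ij => (sh (Pi.single i (1 : F)) (g ij.1)).coeff (ij.2 : ℕ))
    (fun ij => sp_taylor i _ (h _ (hg _)).2) p hp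
  rw [Fintype.card_prod, Fintype.card_fin] at h1 h2
  exact ⟨h1, h2⟩

end BK
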