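import Pool.Agent.Lib.MP_64d474_lc.BK.Defs69
import Pool.Agent.Lib.MP_64d474_lc.AK.Sparse48

/-!
# Row ST: few parts in each block, Taylor coefficients
-/

set_option autoImplicit false

namespace BK

open MvPolynomial AK LS

theorem filter_tsub_single {n : ℕ} (q : Fin n → Prop) [DecidablePred q] (i : Fin n) (l : ℕ)
    (m : Fin n →₀ ℕ) : (m - Finsupp.single i l).filter q =
      if q i then m.filter q - Finsupp.single i l else m.filter q := by
  classical
  split_ifs with h
  · ext j
    by_cases hq : q j
    · rw [Finsupp.filter_apply_pos _ _ hq, Finsupp.tsub_apply, Finsupp.tsub_apply,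
        Finsupp.filter_apply_pos _ _ hq]
    · rw [Finsupp.filter_apply_neg _ _ hq, Finsupp.tsub_apply,
        Finsupp.filter_apply_neg _ _ hq, Nat.zero_sub]
  · ext j
    by_cases hq : q j
    · have hj : j ≠ i := fun h0 => h (h0 ▸ hq)
      rw [Finsupp.filter_apply_pos _ _ hq, Finsupp.tsub_apply, Finsupp.single_eq_of_ne hj,
        Nat.sub_zero, Finsupp.filter_apply_pos _ _ hq]
    · rw [Finsupp.filter_apply_neg _ _ hq, Finsupp.filter_apply_neg _ _ hq]

theorem sp_taylor {F : Type*} [Field F] {n : ℕ} {β : Fin n → ℕ} {s : ℕ} (i : Fin n)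
    (l : ℕ) {f : MvPolynomial (Fin n) F} (h : Sp β s f) :
    Sp β s ((sh (Pi.single i 1) f).coeff l) := by
  classical
  intro b
  have hsub : (((sh (Pi.single i 1) f).coeff l).support.image
      fun μ => μ.filter fun i => β i = b) ⊆
      (f.support.image fun μ => μ.filter fun i => β i = b).image fun x =>
        if β i = b then x - Finsupp.single i l else x := by
    intro x hx
    obtain ⟨μ, hμ, rfl⟩ := Finset.mem_image.1 hx
    obtain ⟨m, hm, rfl⟩ := Finset.mem_image.1 (sh_coeff_support48 i f l hμ)
    exact Finset.mem_image.2 ⟨_, Finset.mem_image_of_mem _ hm,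
      (filter_tsub_single (fun i => β i = b) i l m).symm⟩
  have h3 : (f.support.image fun μ => μ.filter fun i => β i = b).card ≤ s :=
    le_trans (le_of_eq (by congr 1)) (h b)
  exact le_trans (le_of_eq (by congr 1))
    ((Finset.card_le_card hsub).trans (Finset.card_image_le.trans h3))

end BK
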