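import Pool.Agent.Lib.MP_64d474_lc.BK.Defs69
import Pool.Agent.Lib.MP_64d474_lc.LS.TR2

/-!
# Row SM: few parts in each block, translations
-/

set_option autoImplicit false

namespace BK

open MvPolynomial AK LS

theorem sp_mono {F : Type*} [Field F] {n : ℕ} {β : Fin n → ℕ} {s s' : ℕ} (hs : s ≤ s')
    {f : MvPolynomial (Fin n) F} (h : Sp β s f) : Sp β s' f :=
  fun b => (h b).trans hs

theorem filter_update {n : ℕ} (q : Fin n → Prop) [DecidablePred q] (i : Fin n) (l : ℕ)
    (m : Fin n →₀ ℕ) : (m.update i l).filter q =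
      if q i then (m.filter q).update i l else m.filter q := by
  classical
  split_ifs with h
  · ext j
    by_cases hj : j = i
    · subst hj
      rw [Finsupp.filter_apply_pos _ _ h]
      simp
    · by_cases hq : q j
      · rw [Finsupp.filter_apply_pos _ _ hq, Finsupp.update_apply, if_neg hj,
          Finsupp.update_apply, if_neg hj, Finsupp.filter_apply_pos _ _ hq]
      · rw [Finsupp.filter_apply_neg _ _ hq, Finsupp.update_apply, if_neg hj,
          Finsupp.filter_apply_neg _ _ hq]
  · ext j
    by_cases hq : q j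
    · have hj : j ≠ i := fun h0 => h (h0 ▸ hq)
      rw [Finsupp.filter_apply_pos _ _ hq, Finsupp.update_apply, if_neg hj,
        Finsupp.filter_apply_pos _ _ hq]
    · rw [Finsupp.filter_apply_neg _ _ hq, Finsupp.filter_apply_neg _ _ hq]

theorem sp_tr {F : Type*} [Field F] {n : ℕ} {β : Fin n → ℕ} {s e : ℕ} (i : Fin n) (t : F)
    {f : MvPolynomial (Fin n) F} (he : f.degreeOf i ≤ e) (h : Sp β s f) :
    Sp β ((e + 1) * s) (AK.DH.tr (Pi.single i 1) t f) := by
  classical
  intro b
  have hsub : ((AK.DH.tr (Pi.single i 1) t f).support.image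
      fun μ => μ.filter fun i => β i = b) ⊆
      (f.support.image fun μ => μ.filter fun i => β i = b).biUnion fun x =>
        (Finset.range (e + 1)).image fun l => if β i = b then x.update i l else x := by
    intro x hx
    obtain ⟨μ, hμ, rfl⟩ := Finset.mem_image.1 hx
    obtain ⟨m, hm, h2⟩ := Finset.mem_biUnion.1 (AK.DH.tr_support i t f hμ)
    obtain ⟨l, hl, rfl⟩ := Finset.mem_image.1 h2
    refine Finset.mem_biUnion.2 ⟨_, Finset.mem_image_of_mem _ hm, Finset.mem_image.2 ⟨l, ?_, ?_⟩⟩
    · have := le_degreeOf_of_mem_support i hm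
      have := Finset.mem_range.1 hl
      rw [Finset.mem_range]
      omega
    · exact (filter_update (fun i => β i = b) i l m).symm
  have hcard : ((AK.DH.tr (Pi.single i 1) t f).support.image
      fun μ => μ.filter fun i => β i = b).card ≤
      (f.support.image fun μ => μ.filter fun i => β i = b).card * (e + 1) := by
    refine (Finset.card_le_card hsub).trans ?_
    refine Finset.card_biUnion_le_card_mul _ _ _ fun x _ => ?_
    refine Finset.card_image_le.trans ?_
    rw [Finset.card_range]
  have h3 : (f.support.image fun μ => μ.filter fun i => β i = b).card ≤ s :=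
    le_trans (le_of_eq (by congr 1)) (h b)
  refine le_trans (le_of_eq (by congr 1)) (hcard.trans ?_)
  rw [mul_comm]
  exact Nat.mul_le_mul_left _ h3

theorem sp_tc {F : Type*} [Field F] {n : ℕ} {β : Fin n → ℕ} {s e : ℕ} (m : ℕ) (c : Fin n → F)
    (hc : (supp c).card ≤ m) {f : MvPolynomial (Fin n) F} (he : ∀ i, f.degreeOf i ≤ e)
    (h : Sp β s f) : Sp β ((e + 1) ^ m * s) (tc c f) := by
  have h1 := tc_induct (e := e) (fun s (g : MvPolynomial (Fin n) F) => Sp β s g ∧
    ∀ i, g.degreeOf i ≤ e) (fun s s' f hs h => ⟨sp_mono hs h.1, h.2⟩)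
    (fun s i a g h => by
      rw [tc_single]
      exact ⟨sp_tr i a (h.2 i) h.1, fun j => (AK.DH.tr_degreeOf i j a g).trans (h.2 j)⟩)
    m c hc s f ⟨h, he⟩
  exact h1.1

end BK
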