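import Pool.Agent.Lib.MP_64d474_lc.BK.Defs69

/-!
# Row H: the curve hits level 0
-/

set_option autoImplicit false

namespace BK

open MvPolynomial AK LS

/-- One block is replaced by a point of the curve. -/
theorem step_block {F : Type*} [Field F] [CharZero F] {n S : ℕ} {β : Fin n → ℕ} (b : ℕ)
    (f : MvPolynomial (Fin n) F) (h0 : f ≠ 0) (h : Sp β S f) :
    ∃ (t : F) (g : MvPolynomial (Fin n) F), g ≠ 0 ∧ Sp β S g ∧ ∀ x : Fin n → F,
      eval x g = eval (fun i => if β i = b then SP.btPt S t (i : ℕ) else x i) f := by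
  obtain ⟨μ₀, hμ₀⟩ := Finset.nonempty_iff_ne_empty.2 (mt support_eq_empty.1 h0)
  obtain ⟨ρ, hρ⟩ : ∃ ρ : (Fin n →₀ ℕ) → (Fin n →₀ ℕ), ρ = fun μ => μ.filter fun i => ¬ β i = b :=
    ⟨_, rfl⟩
  obtain ⟨π, hπ⟩ : ∃ π : (Fin n →₀ ℕ) → (Fin n →₀ ℕ), π = fun μ => μ.filter fun i => β i = b :=
    ⟨_, rfl⟩
  have hsum : ∀ μ, π μ + ρ μ = μ := fun μ => by
    rw [hπ, hρ]
    exact Finsupp.filter_add_filter_not μ _
  have hS1 : 1 ≤ S := by
    refine le_trans ?_ (h b)
    exact Finset.card_pos.2 ⟨_, Finset.mem_image_of_mem _ hμ₀⟩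
  -- the coefficient of the monomial `ρ μ₀`
  let q : MvPolynomial (Fin n) F :=
    ∑ μ ∈ f.support.filter (fun μ => ρ μ = ρ μ₀), monomial (π μ) (coeff μ f)
  have hqc : coeff (π μ₀) q = coeff μ₀ f := by
    simp only [q, coeff_sum, coeff_monomial]
    rw [Finset.sum_eq_single μ₀]
    · rw [if_pos rfl]
    · intro μ hμ hne
      rw [if_neg]
      intro h1
      exact hne (by rw [← hsum μ, ← hsum μ₀, h1, (Finset.mem_filter.1 hμ).2])
    · intro h1
      exact absurd (show μ₀ ∈ f.support.filter (fun μ => ρ μ = ρ μ₀) from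
        Finset.mem_filter.2 ⟨hμ₀, rfl⟩) h1
  have hq0 : q ≠ 0 := by
    intro h1
    rw [h1, coeff_zero] at hqc
    exact (mem_support_iff.1 hμ₀) hqc.symm
  have hqs : q.support.card ≤ S := by
    refine le_trans (Finset.card_le_card ?_) (h b)
    intro ν hν
    have h1 := support_sum hν
    rw [Finset.mem_biUnion] at h1
    obtain ⟨μ, hμ, hν2⟩ := h1
    have h2 := support_monomial_subset hν2
    rw [Finset.mem_singleton] at h2
    rw [h2, hπ]
    exact Finset.mem_image_of_mem _ (Finset.mem_filter.1 hμ).1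
  obtain ⟨t, ht⟩ := SP.bt_common (S := S) {q} (fun b' hb' => by
    rw [Finset.mem_singleton.1 hb']
    exact ⟨hq0, hqs⟩)
  have ht' := ht q (Finset.mem_singleton_self q)
  -- the new polynomial
  let y : Fin n → F := fun i => SP.btPt S t (i : ℕ)
  let g : MvPolynomial (Fin n) F :=
    ∑ μ ∈ f.support, monomial (ρ μ) (coeff μ f * ∏ i, y i ^ π μ i)
  have hgc : coeff (ρ μ₀) g = eval y q := by
    simp only [g, q, coeff_sum, coeff_monomial, map_sum, Finset.sum_filter]
    refine Finset.sum_congr rfl fun μ _ => ?_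
    split_ifs
    · rw [eval_monomial, Finsupp.prod_fintype _ _ (fun i => pow_zero _)]
    · rfl
  refine ⟨t, g, ?_, ?_, ?_⟩
  · intro h1
    rw [h1, coeff_zero] at hgc
    exact ht' hgc.symm
  · intro b'
    by_cases hb' : b' = b
    · refine le_trans (Finset.card_le_card (t := {0}) ?_) hS1
      intro ν hν
      obtain ⟨μ, hμ, rfl⟩ := Finset.mem_image.1 hν
      have h1 := support_sum hμ
      rw [Finset.mem_biUnion] at h1
      obtain ⟨μ', hμ', h2⟩ := h1
      have h3 := support_monomial_subset h2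
      rw [Finset.mem_singleton] at h3
      rw [Finset.mem_singleton, h3, hρ, hb']
      ext i
      rw [Finsupp.filter_apply, Finsupp.filter_apply]
      by_cases h4 : β i = b
      · simp [h4]
      · simp [h4]
    · refine le_trans (Finset.card_le_card ?_) (h b')
      intro ν hν
      obtain ⟨μ, hμ, rfl⟩ := Finset.mem_image.1 hν
      have h1 := support_sum hμ
      rw [Finset.mem_biUnion] at h1
      obtain ⟨μ', hμ', h2⟩ := h1
      have h3 := support_monomial_subset h2
      rw [Finset.mem_singleton] at h3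
      refine Finset.mem_image.2 ⟨μ', hμ', ?_⟩
      rw [h3, hρ]
      ext i
      rw [Finsupp.filter_apply, Finsupp.filter_apply, Finsupp.filter_apply]
      by_cases h4 : β i = b'
      · rw [if_pos h4, if_pos h4, if_pos]
        intro h5
        exact hb' (h4.symm.trans h5)
      · rw [if_neg h4, if_neg h4]
  · intro x
    rw [eval_eq' (fun i => if β i = b then SP.btPt S t (i : ℕ) else x i) f]
    simp only [g]
    rw [map_sum]
    refine Finset.sum_congr rfl fun μ _ => ?_
    rw [eval_monomial, Finsupp.prod_fintype _ _ (fun i => pow_zero _), mul_assoc,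
      ← Finset.prod_mul_distrib]
    congr 1
    refine Finset.prod_congr rfl fun i _ => ?_
    rw [hπ, hρ]
    simp only [Finsupp.filter_apply]
    by_cases h4 : β i = b
    · simp [h4, y]
    · simp [h4, y]

/-- All blocks. -/
theorem blocks_ne {F : Type*} [Field F] [CharZero F] {n S : ℕ} {β : Fin n → ℕ}
    (f : MvPolynomial (Fin n) F) (h0 : f ≠ 0) (h : Sp β S f) (J : ℕ) :
    ∃ (τ : ℕ → F) (g : MvPolynomial (Fin n) F), g ≠ 0 ∧ Sp β S g ∧ ∀ x : Fin n → F,
      eval x g = eval (fun i => if β i < J then SP.btPt S (τ (β i)) (i : ℕ) else x i) f := by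
  induction J with
  | zero => exact ⟨fun _ => 0, f, h0, h, fun x => by simp⟩
  | succ J ih =>
    obtain ⟨τ, g, hg0, hg, hgx⟩ := ih
    obtain ⟨t, g', hg0', hg', hgx'⟩ := step_block J g hg0 hg
    refine ⟨fun b => if b = J then t else τ b, g', hg0', hg', fun x => ?_⟩
    rw [hgx', hgx]
    congr 2
    funext i
    show (if β i < J then SP.btPt S (τ (β i)) (i : ℕ) else if β i = J then SP.btPt S t (i : ℕ)
      else x i) = if β i < J + 1 then SP.btPt S (if β i = J then t else τ (β i)) (i : ℕ) else x i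
    by_cases h1 : β i < J
    · rw [if_pos h1, if_pos (by omega), if_neg (by omega)]
    · by_cases h2 : β i = J
      · rw [if_neg h1, if_pos h2, if_pos (by omega), if_pos h2]
      · rw [if_neg h1, if_neg h2, if_neg (by omega)]

/-- Row H. -/
theorem blocks_hit {F : Type*} [Field F] [CharZero F] {n κ S W : ℕ} {β : Fin n → ℕ}
    (hβ : ∀ i, β i < 2 ^ κ) (hW : 1 ≤ W) (f : MvPolynomial (Fin n) F) (h0 : f ≠ 0)
    (h1 : Wd β W f) (h2 : Sp β S f) :
    ∃ z : F, eval (fun i : Fin n => SP.btPt S (RO.cv W κ z (β i)) (i : ℕ)) f ≠ 0 := by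
  classical
  obtain ⟨τ, g, hg0, -, hg⟩ := blocks_ne f h0 h2 (2 ^ κ)
  obtain ⟨x, hx⟩ := DH.exists_eval_ne hg0
  rw [hg x] at hx
  -- the polynomial in the parameters of the blocks
  let φ : MvPolynomial (Fin n) F →ₐ[F] MvPolynomial (Fin (2 ^ κ)) F :=
    aeval fun i => SP.btPt S (X ⟨β i, hβ i⟩) (i : ℕ)
  have hφ : ∀ (v : Fin (2 ^ κ) → F) (p : MvPolynomial (Fin n) F),
      eval v (φ p) = eval (fun i => SP.btPt S (v ⟨β i, hβ i⟩) (i : ℕ)) p := by
    intro v p
    have h3 := MvPolynomial.comp_aeval_apply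
      (fun i : Fin n => (SP.btPt S (X ⟨β i, hβ i⟩ : MvPolynomial (Fin (2 ^ κ)) F) (i : ℕ)))
      (aeval v : MvPolynomial (Fin (2 ^ κ)) F →ₐ[F] F) p
    rw [aeval_eq_eval] at h3
    rw [show φ p = aeval (fun i : Fin n =>
      (SP.btPt S (X ⟨β i, hβ i⟩ : MvPolynomial (Fin (2 ^ κ)) F) (i : ℕ))) p from rfl, h3,
      aeval_eq_eval]
    congr 2
    funext i
    have h4 := SP.map_btPt (eval v : MvPolynomial (Fin (2 ^ κ)) F →+* F) S
      (X ⟨β i, hβ i⟩) (i : ℕ)
    rw [h4, eval_X]
  have hne : φ f ≠ 0 := by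
    intro h3
    apply hx
    have h4 := hφ (fun j => τ j) f
    rw [h3, map_zero] at h4
    rw [h4]
    congr 2
    funext i
    rw [if_pos (hβ i)]
  have hsup : ∀ (s : Set ℕ) (p : MvPolynomial (Fin n) F), p ∈ supported F {i : Fin n | β i ∈ s} →
      φ p ∈ supported F {j : Fin (2 ^ κ) | (j : ℕ) ∈ s} := by
    intro s p hp
    rw [supported] at hp
    refine Algebra.adjoin_induction (p := fun p _ => φ p ∈ supported F {j : Fin (2 ^ κ) | (j : ℕ) ∈ s})
      ?_ ?_ ?_ ?_ hp
    · rintro _ ⟨i, hi, rfl⟩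
      show aeval _ (X i) ∈ _
      rw [aeval_X]
      unfold SP.btPt
      refine Subalgebra.sum_mem _ fun j _ => Subalgebra.mul_mem _ (Subalgebra.mul_mem _
        (Subalgebra.mul_mem _ (Subalgebra.pow_mem _ (Subalgebra.neg_mem _ (Subalgebra.one_mem _)) _)
          (Subalgebra.natCast_mem _ _)) (Subalgebra.pow_mem _ (Subalgebra.natCast_mem _ _) _))
        (Subalgebra.prod_mem _ fun l _ => Subalgebra.sub_mem _ ?_ (Subalgebra.natCast_mem _ _))
      exact Algebra.subset_adjoin ⟨_, hi, rfl⟩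
    · intro r
      show aeval _ (algebraMap F _ r) ∈ _
      rw [AlgHom.commutes]
      exact Subalgebra.algebraMap_mem _ _
    · intro p q _ _ hp hq
      rw [map_add]
      exact Subalgebra.add_mem _ hp hq
    · intro p q _ _ hp hq
      rw [map_mul]
      exact Subalgebra.mul_mem _ hp hq
  have hWφ : RO.W W (φ f) := by
    intro c
    obtain ⟨g, h, hg, hh, hf⟩ := h1 c
    refine ⟨fun r => φ (g r), fun r => φ (h r), fun r => ?_, fun r => ?_, ?_⟩
    · exact hsup {j | j < c} _ (hg r)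
    · exact hsup {j | c ≤ j} _ (hh r)
    · rw [hf, map_sum]
      exact Finset.sum_congr rfl fun r _ => map_mul _ _ _
  obtain ⟨z, hz⟩ := RO.curve_hits hW le_rfl (φ f) hne hWφ
  refine ⟨z, ?_⟩
  rw [hφ] at hz
  exact hz

end BK
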