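import Pool.Agent.Lib.MP_64d474_lc.BK.B2
import Pool.Agent.Lib.MP_64d474_lc.BK.H69
import Pool.Agent.Lib.MP_64d474_lc.RO.Z69

/-!
# Row Z: level 0
-/

set_option autoImplicit false

namespace BK

open MvPolynomial AK LS SP

universe u

/-- Rows WM and SM, the first halves. -/
def StMonoB : Prop := ∀ (F : Type u) [Field F] (n w w' s s' : ℕ) (β : Fin n → ℕ), w ≤ w' → s ≤ s' →
  ∀ f : MvPolynomial (Fin n) F, Wd β w f → Sp β s f → Wd β w' f ∧ Sp β s' f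

/-- Row E. -/
def StExprB : Prop := ∀ (F : Type u) [Field F] [Infinite F] (n w s e M : ℕ) (β : Fin n → ℕ)
    (i : Fin n) (BB : Finset (MvPolynomial (Fin n) F)), (∀ b ∈ BB, Wd β w b ∧ Sp β s b) →
    ∀ b : MvPolynomial (Fin n) F, Expr (Pi.single i 1) e M BB b →
    Wd β (((e + 1) * (e + 1) * w + 1) ^ M) b ∧ Sp β (((e + 1) * (e + 1) * s + 1) ^ M) b

/-- Row Z. -/
def StZeroB : Prop := ∀ K e : ℕ, 1 ≤ e → ∃ R c : ℕ, ∀ (F : Type u) [Field F] [CharZero F]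
    (n κ w s W S : ℕ) (β : Fin n → ℕ), (∀ i, β i < 2 ^ κ) → 1 ≤ w → 1 ≤ s → (c * w) ^ c ≤ W →
    (c * s) ^ c ≤ S → ∀ f : MvPolynomial (Fin n) F, f ≠ 0 →
    DH.Alg K (BLev β w s 0 e 0) f → aeval (qX F β κ S W R) f ≠ 0

/-- The classes for the iteration. -/
def PZ {F : Type*} [Field F] {n : ℕ} (β : Fin n → ℕ) (w s e j : ℕ) (b : MvPolynomial (Fin n) F) :
    Prop :=
  (Wd β (SS j w e) b ∧ Sp β (SS j s e) b) ∧ ∀ i, b.degreeOf i ≤ DS j e

theorem steps_PZ (hE : StExprB.{u}) {F : Type u} [Field F] [Infinite F] {n w s e : ℕ}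
    {β : Fin n → ℕ} (he : 1 ≤ e) : Steps (F := F) (n := n) (PZ β w s e) := by
  intro j i BB hBB
  obtain ⟨BB', h1, h2⟩ := step_gen (one_le_DS j he) (Pi.single i (1 : F)) BB
    (fun b hb => (hBB b hb).1)
    (fun b hb => (sh_natDegree_degreeOf i b).trans ((hBB b hb).2.2 i))
  refine ⟨BB', fun b hb => ⟨(h1 b hb).1, ?_, ?_⟩, h2⟩
  · have h3 := hE F n _ _ _ _ β i BB (fun b hb => (hBB b hb).2.1) b (h1 b hb).2
    have e1 : ∀ s : ℕ, ((DS j e + 1) * (DS j e + 1) * SS j s e + 1) ^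
        (2 * DS j e ^ 2 * (DS j e + 1)) = SS (j + 1) s e := fun s => by
      rw [SS_succ, fs]
      congr 1
      ring
    rw [← e1, ← e1]
    exact h3
  · intro i'
    rw [DS_succ]
    have h3 := DH.expr_degreeOf i i' BB (fun b hb => (hBB b hb).2.2 i') b (h1 b hb).2
    have e3 : 2 * DS j e ^ 2 * (DS j e + 1) * DS j e = fd (DS j e) := by rw [fd]; ring
    rw [← e3]
    exact h3

/-- Row Z. -/
theorem zero69 (hM : StMonoB.{u}) (hE : StExprB.{u}) : StZeroB.{u} := by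
  intro K e he
  refine ⟨K, 9 + ∑ j ∈ Finset.range (K + 1), 2 * DS j e,
    fun F _ _ n κ w s W S β hβ hw hs hW hS f h0 hf => ?_⟩
  obtain ⟨m, T, h1, h2, h3⟩ := hf
  obtain ⟨r', hr', I, hI, BB, hBB, hres⟩ :=
    nonzero_gen (PZ β w s e) (steps_PZ hE he) T h1 h2 f h3 h0
  have hmem : r' ∈ Finset.range (K + 1) := Finset.mem_range.2 (Nat.lt_succ_of_le hr')
  have hc : 2 * DS r' e ≤ ∑ j ∈ Finset.range (K + 1), 2 * DS j e :=
    Finset.single_le_sum (f := fun j => 2 * DS j e) (fun _ _ => Nat.zero_le _) hmem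
  set C := 9 + ∑ j ∈ Finset.range (K + 1), 2 * DS j e with hC
  have h9 : 9 ≤ C := by omega
  have h10 : 2 * DS r' e ≤ C := by omega
  have key : ∀ s S : ℕ, 1 ≤ s → (C * s) ^ C ≤ S → SS r' s e ≤ S := by
    intro s S hs hS
    refine (RO.SS_le r' hs he).trans (le_trans ?_ hS)
    calc (9 * s) ^ (2 * DS r' e) ≤ (C * s) ^ (2 * DS r' e) :=
          Nat.pow_le_pow_left (Nat.mul_le_mul_right s h9) _
      _ ≤ (C * s) ^ C := Nat.pow_le_pow_right (Nat.mul_pos (by omega) hs) h10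
  have hW1 : 1 ≤ W := le_trans (Nat.one_le_pow _ _ (Nat.mul_pos (by omega) hw)) hW
  have h4 := hit_of_res (β := β) (κ := κ) (S := S) (W := W) (R := 0) (k := K) I (hI.le.trans hr') BB
    (fun b hb => by
      have h5 := hM F n _ _ _ _ β (key w W hw hW) (key s S hs hS) b (hBB b hb).2.1.1
        (hBB b hb).2.1.2
      exact aeval_qX_of_hit (fun f hf0 hf1 hf2 => blocks_hit hβ hW1 f hf0 hf1 hf2) b (hBB b hb).1
        h5.1 h5.2) f hres
  rwa [zero_add] at h4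

end BK
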