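import Pool.Agent.Lib.MP_64d474_lc.BK.BD2
import Pool.Agent.Lib.MP_64d474_lc.BK.Z69
import Pool.Agent.Lib.MP_64d474_lc.BK.SM81
import Pool.Agent.Lib.MP_64d474_lc.BK.SQ81
import Pool.Agent.Lib.MP_64d474_lc.BK.ST55
import Pool.Agent.Lib.MP_64d474_lc.BK.WM2
import Pool.Agent.Lib.MP_64d474_lc.BK.WP81

/-!
# The final theorem: sums over read-once programs with sparse blocks
-/

set_option autoImplicit false

namespace BK

open MvPolynomial AK LS DF

universe u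

/-- Row E. -/
theorem expr_b {F : Type*} [Field F] [Infinite F] {n w s e M : ℕ} {β : Fin n → ℕ} (i : Fin n)
    (BB : Finset (MvPolynomial (Fin n) F)) (h : ∀ b ∈ BB, Wd β w b ∧ Sp β s b)
    (b : MvPolynomial (Fin n) F) (hb : Expr (Pi.single i 1) e M BB b) :
    Wd β (((e + 1) * (e + 1) * w + 1) ^ M) b ∧ Sp β (((e + 1) * (e + 1) * s + 1) ^ M) b := by
  obtain ⟨g, p, hg, hp, rfl⟩ := hb
  have h1 := wd_aeval (fun al : Fin (e + 1) × Fin (e + 1) =>
    (sh (Pi.single i (1 : F)) (g al.1)).coeff al.2) (fun al => wd_taylor i _ (h _ (hg al.1)).1) p hp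
  have h2 := sp_aeval (fun al : Fin (e + 1) × Fin (e + 1) =>
    (sh (Pi.single i (1 : F)) (g al.1)).coeff al.2) (fun al => sp_taylor i _ (h _ (hg al.1)).2) p hp
  rw [Fintype.card_prod, Fintype.card_fin] at h1 h2
  exact ⟨h1, h2⟩

theorem stMonoB : StMonoB.{u} := fun _ _ _ _ _ _ _ _ hw hs _ h1 h2 => ⟨wd_mono hw h1, sp_mono hs h2⟩

theorem stExprB : StExprB.{u} := fun _ _ _ _ _ _ _ _ _ i BB h b hb => expr_b i BB h b hb

theorem stTcB : StTcB.{u} := fun _ _ _ _ _ _ m c hc _ _ he h =>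
  ⟨wd_tc c h.1, sp_tc m c hc he h.2⟩

theorem stZeroD : StZeroD.{u} := zero69 stMonoB stExprB

/-- The levels over the blocks. -/
def RBLev {F : Type*} [Field F] {n : ℕ} (β : Fin n → ℕ) (w s r k e : ℕ) :
    ℕ → MvPolynomial (Fin n) F → Prop
  | 0, f => (Wd β w f ∧ Sp β s f) ∧ ∀ i, f.degreeOf i ≤ e
  | t + 1, f => LocR r k e (RBLev β w s r k e t) f ∧ ∀ i, f.degreeOf i ≤ e

theorem rblev_eq {F : Type*} [Field F] {n : ℕ} (β : Fin n → ℕ) (w s r k e t : ℕ) :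
    RBLev (F := F) β w s r k e t = GRLev (BB0 β w) r s k e t := by
  induction t with
  | zero => rfl
  | succ t ih =>
    funext f
    show (LocR r k e (RBLev β w s r k e t) f ∧ _) = _
    rw [ih]
    rfl

/-- **The final theorem.** -/
theorem hit_topR (t : ℕ) : ∀ r k e : ℕ, 1 ≤ e → ∃ R c : ℕ, ∀ (F : Type u) [Field F] [CharZero F]
    (n κ w s W S : ℕ) (β : Fin n → ℕ), (∀ i, β i < 2 ^ κ) → 1 ≤ w → 1 ≤ s → (c * w) ^ c ≤ W →
    (c * s) ^ c ≤ S → ∀ f : MvPolynomial (Fin n) F, f ≠ 0 →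
    LocR r k e (RBLev β w s r k e t) f → aeval (qX F β κ S W R) f ≠ 0 := by
  intro r k e he
  obtain ⟨R, c, h⟩ := hit_topB.{u} stTcB stZeroD t r k e he
  refine ⟨R, c, fun F _ _ n κ w s W S β hβ hw hs hW hS f h0 hf => ?_⟩
  rw [rblev_eq] at hf
  exact h F n κ w s W S β hβ hw hs hW hS f h0 hf

end BK
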