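import Pool.Agent.Lib.MP_64d474_lc.BK.Defs69
import Pool.Agent.Lib.MP_64d474_lc.RO.MT2

/-!
# Rows WM, WT: width at the cuts between blocks (helper14, after RO/MT2)
-/

set_option autoImplicit false

namespace BK

open MvPolynomial AK LS

theorem wd_mono {F : Type*} [Field F] {n : ℕ} {β : Fin n → ℕ} {w w' : ℕ} (hw : w ≤ w')
    {f : MvPolynomial (Fin n) F} (h : Wd β w f) : Wd β w' f := by
  classical
  intro c
  obtain ⟨g, h', hg, hh, rfl⟩ := h c
  refine ⟨fun r => if r < w then g r else 0, h', fun r => ?_, hh, ?_⟩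
  · dsimp only
    split_ifs
    · exact hg r
    · exact Subalgebra.zero_mem _
  · rw [← Finset.sum_subset (Finset.range_mono hw)]
    · refine Finset.sum_congr rfl fun r hr => ?_
      dsimp only
      rw [if_pos (Finset.mem_range.1 hr)]
    · intro r _ hr
      dsimp only
      rw [if_neg (fun h => hr (Finset.mem_range.2 h)), zero_mul]

theorem wd_tc {F : Type*} [Field F] {n : ℕ} {β : Fin n → ℕ} {w : ℕ} (c : Fin n → F)
    {f : MvPolynomial (Fin n) F} (h : Wd β w f) : Wd β w (tc c f) := by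
  intro c'
  obtain ⟨g, h', hg, hh, rfl⟩ := h c'
  refine ⟨fun r => tc c (g r), fun r => tc c (h' r), fun r => RO.tc_supported c (hg r),
    fun r => RO.tc_supported c (hh r), ?_⟩
  rw [map_sum]
  exact Finset.sum_congr rfl fun r _ => map_mul _ _ _

/-- Row WT. -/
theorem wd_taylor {F : Type*} [Field F] [Infinite F] {n : ℕ} {β : Fin n → ℕ} {w : ℕ} (i : Fin n)
    (l : ℕ) {f : MvPolynomial (Fin n) F} (h : Wd β w f) :
    Wd β w ((sh (Pi.single i 1) f).coeff l) := by
  classical
  obtain ⟨e, he⟩ : ∃ e, e = max (f.degreeOf i) l := ⟨_, rfl⟩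
  obtain ⟨c, lam, -, hlam⟩ := AK.DH.coeff_eq_sum_tr (F := F) (Pi.single i (1 : F)) e
  have hl : l < e + 1 := by omega
  have hdeg : (sh (Pi.single i (1 : F)) f).natDegree ≤ e :=
    (sh_natDegree_degreeOf i f).trans (by omega)
  have h1 := hlam f hdeg ⟨l, hl⟩
  change (sh (Pi.single i 1) f).coeff l = _ at h1
  rw [h1]
  intro c'
  obtain ⟨g, h, hg, hh, hf⟩ := h c'
  by_cases hi : β i < c'
  · refine ⟨fun r => ∑ j, C (lam ⟨l, hl⟩ j) * AK.DH.tr (Pi.single i 1) (c j) (g r), h,
      fun r => ?_, hh, ?_⟩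
    · exact Subalgebra.sum_mem _ fun j _ => Subalgebra.mul_mem _ (Subalgebra.algebraMap_mem _ _)
        (RO.tr_supported i _ (hg r))
    · simp only [Finset.sum_mul]
      rw [Finset.sum_comm]
      refine Finset.sum_congr rfl fun j _ => ?_
      rw [hf, map_sum, Finset.mul_sum]
      refine Finset.sum_congr rfl fun r _ => ?_
      rw [map_mul, RO.tr_fixed i (c j) (T := {i : Fin n | c' ≤ β i}) (not_le.2 hi) (hh r),
        mul_assoc]
  · refine ⟨g, fun r => ∑ j, C (lam ⟨l, hl⟩ j) * AK.DH.tr (Pi.single i 1) (c j) (h r), hg,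
      fun r => ?_, ?_⟩
    · exact Subalgebra.sum_mem _ fun j _ => Subalgebra.mul_mem _ (Subalgebra.algebraMap_mem _ _)
        (RO.tr_supported i _ (hh r))
    · simp only [Finset.mul_sum]
      rw [Finset.sum_comm]
      refine Finset.sum_congr rfl fun j _ => ?_
      rw [hf, map_sum, Finset.mul_sum]
      refine Finset.sum_congr rfl fun r _ => ?_
      rw [map_mul, RO.tr_fixed i (c j) (T := {i : Fin n | β i < c'}) hi (hg r)]
      ring

end BK
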