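import Pool.Agent.Lib.MP_64d474_lc.BK.BD2
import Pool.Agent.Lib.MP_64d474_lc.BK.Z69
import Pool.Agent.Lib.MP_64d474_lc.BK.SM81
import Pool.Agent.Lib.MP_64d474_lc.BK.E55

/-!
# Levels over blocks: the final statement
-/

set_option autoImplicit false

namespace BK

open MvPolynomial AK LS DF

universe u

theorem stTcB : StTcB.{u} := fun _ _ _ _ _ _ m c hc _ _ he h => ⟨wd_tc c h.1, sp_tc m c hc he h.2⟩

theorem stMonoB : StMonoB.{u} := fun _ _ _ _ _ _ _ _ hw hs _ h1 h2 => ⟨wd_mono hw h1, sp_mono hs h2⟩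

theorem stExprB : StExprB.{u} := fun _ _ _ _ _ _ _ _ _ i BB h b hb => expr_b i BB h b hb

theorem stZeroD : StZeroD.{u} := by
  intro K e he
  obtain ⟨R, c, h⟩ := zero69 stMonoB.{u} stExprB.{u} K e he
  exact ⟨R, c, fun F _ _ n l w s V S β hβ hw hs hV hS f h0 hf =>
    h F n l w s V S β hβ hw hs hV hS f h0 hf⟩

/-- All levels over blocks, the sums with any `r` variables in few terms. -/
theorem hit_all (t : ℕ) : ∀ r k e : ℕ, 1 ≤ e → ∃ R c : ℕ, ∀ (F : Type u) [Field F] [CharZero F]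
    (n l w s V S : ℕ) (β : Fin n → ℕ), (∀ i, β i < 2 ^ l) → 1 ≤ w → 1 ≤ s → (c * w) ^ c ≤ V →
    (c * s) ^ c ≤ S → ∀ f : MvPolynomial (Fin n) F, f ≠ 0 →
    LocR r k e (GRLev (BB0 β w) r s k e t) f → aeval (qX F β l S V R) f ≠ 0 :=
  hit_topB stTcB.{u} stZeroD.{u} t

end BK
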