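import Pool.Agent.Lib.MP_64d474_lc.BK.Defs69

/-!
# Row SM: few parts of monomials in each block, and translations
-/

set_option autoImplicit false

namespace BK

open MvPolynomial AK LS

theorem sp_mono {F : Type*} [Field F] {n : ℕ} {β : Fin n → ℕ} {s s' : ℕ} (hs : s ≤ s')
    {f : MvPolynomial (Fin n) F} (h : Sp β s f) : Sp β s' f := fun b => (h b).trans hs

theorem filter_update_of {n : ℕ} (β : Fin n → ℕ) (b : ℕ) (i : Fin n) (l : ℕ) (m : Fin n →₀ ℕ)
    (h : β i = b) : (m.update i l).filter (fun j => β j = b) =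
      (m.filter fun j => β j = b).update i l := by
  classical
  ext j
  rw [Finsupp.filter_apply, Finsupp.update_apply, Finsupp.update_apply, Finsupp.filter_apply]
  by_cases hji : j = i
  · subst hji
    rw [if_pos h, if_pos rfl, if_pos rfl]
  · rw [if_neg hji, if_neg hji]

theorem filter_update_of_ne {n : ℕ} (β : Fin n → ℕ) (b : ℕ) (i : Fin n) (l : ℕ)
    (m : Fin n →₀ ℕ) (h : β i ≠ b) : (m.update i l).filter (fun j => β j = b) =
      m.filter fun j => β j = b := by
  classical
  ext j
  rw [Finsupp.filter_apply, Finsupp.update_apply, Finsupp.filter_apply]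
  by_cases hji : j = i
  · subst hji
    rw [if_neg h, if_neg h]
  · rw [if_neg hji]

theorem sp_tr {F : Type*} [Field F] {n : ℕ} {β : Fin n → ℕ} {s e : ℕ} (i : Fin n) (a : F)
    {f : MvPolynomial (Fin n) F} (he : ∀ i, f.degreeOf i ≤ e) (h : Sp β s f) :
    Sp β ((e + 1) * s) (AK.DH.tr (Pi.single i 1) a f) := by
  classical
  intro b
  have hsub : ((AK.DH.tr (Pi.single i 1) a f).support.image fun μ =>
      μ.filter fun i => β i = b) ⊆
      (f.support.image fun μ => μ.filter fun i => β i = b).biUnion fun P =>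
        (Finset.range (e + 1)).image fun l => if β i = b then P.update i l else P := by
    intro ν hν
    obtain ⟨m', hm', rfl⟩ := Finset.mem_image.1 hν
    have h1 := AK.DH.tr_support i a f hm'
    rw [Finset.mem_biUnion] at h1
    obtain ⟨m, hm, h2⟩ := h1
    obtain ⟨l, hl, rfl⟩ := Finset.mem_image.1 h2
    rw [Finset.mem_biUnion]
    refine ⟨m.filter fun i => β i = b, Finset.mem_image_of_mem _ hm, ?_⟩
    rw [Finset.mem_image]
    have h3 := MvPolynomial.le_degreeOf_of_mem_support i hm
    have h4 := he i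
    rw [Finset.mem_range] at hl
    refine ⟨l, Finset.mem_range.2 (by omega), ?_⟩
    by_cases hb : β i = b
    · rw [if_pos hb, filter_update_of β b i l m hb]
    · rw [if_neg hb, filter_update_of_ne β b i l m hb]
  refine (Finset.card_le_card hsub).trans ?_
  refine (Finset.card_biUnion_le_card_mul _ _ (e + 1) fun P _ => ?_).trans ?_
  · exact Finset.card_image_le.trans (by rw [Finset.card_range])
  · rw [mul_comm]
    exact Nat.mul_le_mul_left _ (by convert h b)

theorem sp_tc {F : Type*} [Field F] {n : ℕ} {β : Fin n → ℕ} {s e : ℕ} (m : ℕ) (c : Fin n → F)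
    (hc : (supp c).card ≤ m) {f : MvPolynomial (Fin n) F} (he : ∀ i, f.degreeOf i ≤ e)
    (h : Sp β s f) : Sp β ((e + 1) ^ m * s) (tc c f) := by
  have h2 := tc_induct (e := e) (fun s (g : MvPolynomial (Fin n) F) => Sp β s g ∧
    ∀ i, g.degreeOf i ≤ e) (fun s s' f hs h => ⟨sp_mono hs h.1, h.2⟩)
    (fun s i a g h => by
      rw [tc_single]
      exact ⟨sp_tr i a h.2 h.1, fun j => (AK.DH.tr_degreeOf i j a g).trans (h.2 j)⟩)
    m c hc s f ⟨h, he⟩
  exact h2.1

end BK
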