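import Pool.Agent.Lib.MP_64d474_lc.BK.Defs69
import Pool.Agent.Lib.MP_64d474_lc.DH.Size69

/-!
# The size of the coordinates of the points with blocks
-/

set_option autoImplicit false

namespace BK

open DH.Size69

/-- The curve. -/
theorem cv_le {W : ℕ} (hW : 1 ≤ W) (κ : ℕ) : ∀ (z : ℤ) (b : ℕ),
    |RO.cv W κ z b| ≤ (|z| + κ + 1) ^ W ^ κ := by
  obtain ⟨V, rfl⟩ : ∃ V, W = V + 1 := ⟨W - 1, by omega⟩
  induction κ with
  | zero =>
    intro z b
    have h : (0 : ℤ) ≤ |z| := abs_nonneg z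
    simp only [RO.cv, pow_zero, pow_one, Nat.cast_zero]
    linarith
  | succ κ ih =>
    intro z b
    have hz : (0 : ℤ) ≤ |z| := abs_nonneg z
    have key : ∀ z' : ℤ, |z'| ≤ (|z| + 1) ^ (V + 1) →
        (|z'| + κ + 1) ^ (V + 1) ^ κ ≤ (|z| + (κ + 1 : ℕ) + 1) ^ (V + 1) ^ (κ + 1) := by
      intro z' h
      rw [pow_succ (V + 1) κ, mul_comm ((V + 1) ^ κ), pow_mul]
      refine pow_le_pow_left₀ (by positivity) ?_ _
      have h1 : (|z| + 1) ^ (V + 1) + ((κ : ℤ) + 1) ≤ (|z| + 1 + ((κ : ℤ) + 1)) ^ (V + 1) := by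
        have h2 : (1 : ℤ) ≤ (|z| + 1 + ((κ : ℤ) + 1)) ^ V := one_le_pow₀ (by linarith)
        have h3 : (|z| + 1) ^ V ≤ (|z| + 1 + ((κ : ℤ) + 1)) ^ V :=
          pow_le_pow_left₀ (by linarith) (by linarith) V
        calc (|z| + 1) ^ (V + 1) + ((κ : ℤ) + 1)
            = (|z| + 1) ^ V * (|z| + 1) + 1 * ((κ : ℤ) + 1) := by ring
          _ ≤ (|z| + 1 + ((κ : ℤ) + 1)) ^ V * (|z| + 1) +
              (|z| + 1 + ((κ : ℤ) + 1)) ^ V * ((κ : ℤ) + 1) := by
              refine add_le_add (mul_le_mul_of_nonneg_right h3 (by linarith))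
                (mul_le_mul_of_nonneg_right h2 (by positivity))
          _ = (|z| + 1 + ((κ : ℤ) + 1)) ^ (V + 1) := by ring
      push_cast
      calc |z'| + (κ : ℤ) + 1 ≤ (|z| + 1) ^ (V + 1) + ((κ : ℤ) + 1) := by linarith
        _ ≤ (|z| + 1 + ((κ : ℤ) + 1)) ^ (V + 1) := h1
        _ = (|z| + ((κ : ℤ) + 1) + 1) ^ (V + 1) := by ring
    have hp : |z| ^ (V + 1) ≤ (|z| + 1) ^ (V + 1) :=
      pow_le_pow_left₀ hz (by linarith) _
    simp only [RO.cv]
    split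
    · refine (ih _ _).trans (key _ ?_)
      rw [abs_pow]
      exact hp
    · refine (ih _ _).trans (key _ ?_)
      have h4 : z ^ (V + 1) + z ^ (V + 1 - 1) = z ^ V * (z + 1) := by
        rw [Nat.add_sub_cancel]
        ring
      rw [h4, abs_mul, abs_pow, pow_succ]
      refine mul_le_mul (pow_le_pow_left₀ hz (by linarith) _) ?_ (abs_nonneg _) (by positivity)
      calc |z + 1| ≤ |z| + |1| := abs_add_le _ _
        _ = |z| + 1 := by rw [abs_one]

/-- The curve through the points of Ben-Or and Tiwari, at any integer. -/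
theorem btPt_le {n S : ℕ} {X : ℕ} {x : ℤ} (hx : |x| ≤ X) (i : Fin n) :
    |SP.btPt S x (i : ℕ)| ≤ ((2 ^ (n + 1) * (X + S) : ℕ) : ℤ) ^ S := by
  rcases Nat.eq_zero_or_pos S with h0 | hS
  · subst h0
    simp [SP.btPt]
  have hp : Nat.nth Nat.Prime (i : ℕ) ≤ 2 ^ n :=
    (nth_prime_le i).trans (Nat.pow_le_pow_right (by norm_num) i.2)
  have h1 : ∀ j ∈ Finset.range S, |((-1) ^ (S - 1 - j) * ((S - 1).choose j : ℤ) *
      (Nat.nth Nat.Prime i : ℤ) ^ j) * ∏ l ∈ (Finset.range S).erase j, (x - (l : ℤ))| ≤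
      (((S - 1).choose j * (2 ^ n) ^ j * (X + S) ^ (S - 1) : ℕ) : ℤ) := by
    intro j hj
    rw [abs_mul, abs_mul, abs_mul, abs_pow, abs_neg, abs_one, one_pow, one_mul, Nat.abs_cast,
      abs_pow, Nat.abs_cast, Finset.abs_prod]
    push_cast
    refine mul_le_mul ?_ ?_ (Finset.prod_nonneg fun _ _ => abs_nonneg _) (by positivity)
    · refine mul_le_mul_of_nonneg_left ?_ (by positivity)
      exact pow_le_pow_left₀ (by positivity) (by exact_mod_cast hp) j
    · calc ∏ l ∈ (Finset.range S).erase j, |x - (l : ℤ)|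
          ≤ ∏ l ∈ (Finset.range S).erase j, ((X : ℤ) + S) := by
            refine Finset.prod_le_prod (fun _ _ => abs_nonneg _) fun l hl => ?_
            have h2 : l < S := Finset.mem_range.1 (Finset.mem_of_mem_erase hl)
            have h2' : (l : ℤ) ≤ S := by exact_mod_cast h2.le
            refine (abs_sub _ _).trans ?_
            rw [Nat.abs_cast]
            linarith
        _ = ((X : ℤ) + S) ^ (S - 1) := by
            rw [Finset.prod_const, Finset.card_erase_of_mem hj, Finset.card_range]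
  refine (Finset.abs_sum_le_sum_abs _ _).trans ((Finset.sum_le_sum h1).trans ?_)
  rw [← Nat.cast_sum, ← Nat.cast_pow, Nat.cast_le, ← Finset.sum_mul]
  have h3 : ∑ j ∈ Finset.range S, (S - 1).choose j * (2 ^ n) ^ j = (2 ^ n + 1) ^ (S - 1) := by
    rw [add_pow]
    have e : S - 1 + 1 = S := Nat.succ_pred_eq_of_pos hS
    rw [e]
    refine Finset.sum_congr rfl fun j _ => ?_
    rw [one_pow, mul_one, mul_comm]
    rfl
  rw [h3]
  have h4 : 2 ^ n + 1 ≤ 2 ^ (n + 1) := by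
    have : 1 ≤ 2 ^ n := Nat.one_le_two_pow
    rw [pow_succ]
    omega
  calc (2 ^ n + 1) ^ (S - 1) * (X + S) ^ (S - 1)
      ≤ (2 ^ (n + 1)) ^ (S - 1) * (X + S) ^ (S - 1) :=
        Nat.mul_le_mul_right _ (Nat.pow_le_pow_left h4 _)
    _ = (2 ^ (n + 1) * (X + S)) ^ (S - 1) := by rw [← mul_pow]
    _ ≤ (2 ^ (n + 1) * (X + S)) ^ S :=
        Nat.pow_le_pow_right (Nat.mul_pos (by positivity) (by omega)) (Nat.sub_le _ _)

/-- The coordinates of the points. -/
theorem size_le {n κ S W R N : ℕ} (β : Fin n → ℕ) (hW : 1 ≤ W) {t : ℕ}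
    (ht : t ≤ N * ((S - 1) * W ^ κ)) {a w : Fin R → ℕ} (ha : ∀ j, a j ≤ N * (n - 1))
    (hw : ∀ j, w j ≤ N) (i : Fin n) :
    |qpt β κ S W (t : ℤ) (fun j => (a j : ℤ)) (fun j => (w j : ℤ)) i| ≤
      ((2 ^ (n + 1) * ((N * S * W ^ κ + κ + 1) ^ W ^ κ + S)) ^ S + R * (n * (N + 1)) ^ n : ℕ) := by
  refine (abs_add_le _ _).trans ?_
  rw [Nat.cast_add, Nat.cast_pow]
  refine add_le_add (btPt_le ?_ i) (seeds_le (fun j => (ha j).trans
    ((Nat.mul_le_mul_left N (Nat.sub_le n 1)).trans (Nat.mul_comm N n).le)) hw i)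
  refine (cv_le hW κ _ _).trans ?_
  push_cast
  refine pow_le_pow_left₀ (by positivity) ?_ _
  have h1 : t ≤ N * S * W ^ κ := by
    rw [mul_assoc]
    exact ht.trans (Nat.mul_le_mul_left N (Nat.mul_le_mul_right _ (Nat.sub_le S 1)))
  have h2 : (t : ℤ) ≤ N * S * W ^ κ := by exact_mod_cast h1
  rw [Nat.abs_cast]
  linarith

end BK
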