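import Pool.Agent.Lib.MP_64d474_lc.BK.BD2
import Pool.Agent.Lib.MP_64d474_lc.BK.Z69
import Pool.Agent.Lib.MP_64d474_lc.BK.WM2
import Pool.Agent.Lib.MP_64d474_lc.BK.WP81
import Pool.Agent.Lib.MP_64d474_lc.BK.SM81
import Pool.Agent.Lib.MP_64d474_lc.BK.ST55
import Pool.Agent.Lib.MP_64d474_lc.BK.SQ81

/-!
# All levels, `r`-wise local sums, read-once programs over blocks with sparse entries
-/

set_option autoImplicit false

namespace BK

open MvPolynomial AK LS DF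

universe u

/-- Row E. -/
theorem expr_b {F : Type*} [Field F] [Infinite F] {n w s e M : ℕ} {β : Fin n → ℕ} (i : Fin n)
    (BB : Finset (MvPolynomial (Fin n) F)) (h : ∀ b ∈ BB, Wd β w b ∧ Sp β s b)
    (b : MvPolynomial (Fin n) F) (hb : Expr (Pi.single i 1) e M BB b) :
    Wd β (((e + 1) * (e + 1) * w + 1) ^ M) b ∧ Sp β (((e + 1) * (e + 1) * s + 1) ^ M) b := by
  obtain ⟨g, p, hg, hp, rfl⟩ := hb
  have h1 := wd_aeval (β := β) (κ := Fin (e + 1) × Fin (e + 1))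
    (fun ij => (sh (Pi.single i (1 : F)) (g ij.1)).coeff (ij.2 : ℕ))
    (fun ij => wd_taylor i _ (h _ (hg _)).1) p hp
  have h2 := sp_aeval (β := β) (κ := Fin (e + 1) × Fin (e + 1))
    (fun ij => (sh (Pi.single i (1 : F)) (g ij.1)).coeff (ij.2 : ℕ))
    (fun ij => sp_taylor i _ (h _ (hg _)).2) p hp
  rw [Fintype.card_prod, Fintype.card_fin] at h1 h2
  exact ⟨h1, h2⟩

theorem stTcB : StTcB.{u} := fun _ _ _ _ _ _ m c hc _ _ he hf =>
  ⟨wd_tc c hf.1, sp_tc m c hc he hf.2⟩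

theorem stZeroD : StZeroD.{u} := by
  intro K e he
  obtain ⟨R, c, h⟩ := zero69.{u}
    (fun _ _ _ _ _ _ _ _ hw hs _ h1 h2 => ⟨wd_mono hw h1, sp_mono hs h2⟩)
    (fun _ _ _ _ _ _ _ _ _ i BB h b hb => expr_b i BB h b hb) K e he
  refine ⟨R, c, fun F _ _ n l w s V S β hβ hw hs hV hS f h0 hf => ?_⟩
  exact h F n l w s V S β hβ hw hs hV hS f h0 (DH.alg_mono le_rfl (fun g hg => hg) hf)

/-- The final statement. -/
theorem hit_top (t : ℕ) : ∀ r k e : ℕ, 1 ≤ e → ∃ R c : ℕ, ∀ (F : Type u) [Field F] [CharZero F]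
    (n l w s V S : ℕ) (β : Fin n → ℕ), (∀ i, β i < 2 ^ l) → 1 ≤ w → 1 ≤ s → (c * w) ^ c ≤ V →
    (c * s) ^ c ≤ S → ∀ f : MvPolynomial (Fin n) F, f ≠ 0 →
    LocR r k e (GRLev (BB0 β w) r s k e t) f → aeval (qX F β l S V R) f ≠ 0 :=
  hit_topB stTcB stZeroD t

end BK
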