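import Pool.Agent.Lib.MP_64d474_lc.BK.WM2
import Pool.Agent.Lib.MP_64d474_lc.BK.WP81
import Pool.Agent.Lib.MP_64d474_lc.BK.SM93
import Pool.Agent.Lib.MP_64d474_lc.BK.ST55
import Pool.Agent.Lib.MP_64d474_lc.BK.SQ81
import Pool.Agent.Lib.MP_64d474_lc.BK.Z69
import Pool.Agent.Lib.MP_64d474_lc.BK.BD2

/-!
# Local sums over read-once programs with sparse blocks: assembly
-/

set_option autoImplicit false

namespace BK

open MvPolynomial AK LS DF

universe u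

theorem stMonoB : StMonoB.{u} := fun _ _ _ _ _ _ _ _ hw hs _ h1 h2 =>
  ⟨wd_mono hw h1, sp_mono hs h2⟩

/-- Row E. -/
theorem expr_b {F : Type*} [Field F] [Infinite F] {n w s e M : ℕ} {β : Fin n → ℕ} (i : Fin n)
    (BB : Finset (MvPolynomial (Fin n) F)) (h : ∀ b ∈ BB, Wd β w b ∧ Sp β s b)
    (b : MvPolynomial (Fin n) F) (hb : Expr (Pi.single i 1) e M BB b) :
    Wd β (((e + 1) * (e + 1) * w + 1) ^ M) b ∧ Sp β (((e + 1) * (e + 1) * s + 1) ^ M) b := by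
  obtain ⟨g, p, hg, hp, rfl⟩ := hb
  have h1 := wd_aeval (fun ij : Fin (e + 1) × Fin (e + 1) =>
    (sh (Pi.single i (1 : F)) (g ij.1)).coeff ij.2) (fun ij => wd_taylor i _ (h _ (hg ij.1)).1) p hp
  have h2 := sp_aeval (fun ij : Fin (e + 1) × Fin (e + 1) =>
    (sh (Pi.single i (1 : F)) (g ij.1)).coeff ij.2) (fun ij => sp_taylor i _ (h _ (hg ij.1)).2) p hp
  rw [Fintype.card_prod, Fintype.card_fin] at h1 h2
  exact ⟨h1, h2⟩

theorem stExprB : StExprB.{u} := fun _ _ _ _ _ _ _ _ _ i BB h b hb => expr_b i BB h b hb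

theorem stTcB : StTcB.{u} := fun _ _ _ _ w e m c hc s f hf h =>
  ⟨wd_tc c h.1, sp_tc m c hc hf h.2⟩

theorem stZeroD : StZeroD.{u} := fun K e he => by
  obtain ⟨R, c, h⟩ := zero69 stMonoB.{u} stExprB.{u} K e he
  exact ⟨R, c, fun F _ _ n l w s V S β hβ hw hs hV hS f h0 hf =>
    h F n l w s V S β hβ hw hs hV hS f h0 hf⟩

/-- **The final statement.** -/
theorem hit_fin (t : ℕ) : ∀ r k e : ℕ, 1 ≤ e → ∃ R c : ℕ, ∀ (F : Type u) [Field F] [CharZero F]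
    (n l w s V S : ℕ) (β : Fin n → ℕ), (∀ i, β i < 2 ^ l) → 1 ≤ w → 1 ≤ s → (c * w) ^ c ≤ V →
    (c * s) ^ c ≤ S → ∀ f : MvPolynomial (Fin n) F, f ≠ 0 →
    LocR r k e (GRLev (BB0 β w) r s k e t) f → aeval (qX F β l S V R) f ≠ 0 :=
  hit_topB stTcB stZeroD t

end BK
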